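import Mathlib

set_option maxHeartbeats 400000

namespace Pool.Agent.H.MP_b83182_al

open TensorProduct

variable {L N : Type} [LieRing L] [LieAlgebra ℝ L] [Module ℚ L] [IsScalarTower ℚ ℝ L]
  [LieRing N] [LieAlgebra ℚ N]

/-- a rational structure -/
structure QS (L N : Type) [LieRing L] [LieAlgebra ℝ L] [Module ℚ L] [LieRing N] [LieAlgebra ℚ N]
    where
  i : N →ₗ[ℚ] L
  p : (ℝ →ₗ[ℚ] ℚ) → L →ₗ[ℚ] N
  lie : ∀ a b, i ⁅a, b⁆ = ⁅i a, i b⁆
  pi : ∀ φ (r : ℝ) n, p φ (r • i n) = φ r • n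
  span : Submodule.span ℝ (Set.range i) = ⊤

theorem exists_QS (Φ : L ≃ₗ⁅ℝ⁆ ℝ ⊗[ℚ] N) : Nonempty (QS L N) := by
  refine ⟨⟨(Φ.symm.toLinearEquiv.toLinearMap.restrictScalars ℚ) ∘ₗ TensorProduct.mk ℚ ℝ N 1,
    fun φ => (TensorProduct.lid ℚ N).toLinearMap ∘ₗ φ.rTensor N ∘ₗ
      (Φ.toLinearEquiv.toLinearMap.restrictScalars ℚ), fun a b => ?_, fun φ r n => ?_, ?_⟩⟩
  · change Φ.symm (1 ⊗ₜ ⁅a, b⁆) = ⁅Φ.symm (1 ⊗ₜ a), Φ.symm (1 ⊗ₜ b)⁆
    rw [← Φ.symm.map_lie, LieAlgebra.ExtendScalars.bracket_tmul, one_mul]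
  · change TensorProduct.lid ℚ N (φ.rTensor N (Φ (r • Φ.symm (1 ⊗ₜ n)))) = _
    rw [map_smul, Φ.apply_symm_apply, smul_tmul', smul_eq_mul, mul_one]
    simp
  · rw [eq_top_iff]
    intro x _
    obtain ⟨y, rfl⟩ := Φ.symm.surjective x
    induction y with
    | zero => simp
    | tmul r n =>
      have : r ⊗ₜ[ℚ] n = r • (1 : ℝ) ⊗ₜ[ℚ] n := by rw [smul_tmul', smul_eq_mul, mul_one]
      rw [this, map_smul]
      exact Submodule.smul_mem _ _ (Submodule.subset_span ⟨n, rfl⟩)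
    | add a b ha hb => rw [map_add]; exact add_mem (ha trivial) (hb trivial)

theorem exists_phi {r : ℝ} (hr : ∀ q : ℚ, r ≠ q) : ∃ φ : ℝ →ₗ[ℚ] ℚ, φ 1 = 0 ∧ φ r ≠ 0 := by
  have : r ∉ Submodule.span ℚ {(1 : ℝ)} := fun h => by
    obtain ⟨q, hq⟩ := Submodule.mem_span_singleton.1 h
    exact hr q (by simpa using hq.symm)
  obtain ⟨φ, h1, h2⟩ := Submodule.exists_le_ker_of_notMem this
  exact ⟨φ, h2 (Submodule.subset_span rfl), h1⟩

theorem exists_phi' {r : ℝ} (hr : r ≠ 0) : ∃ φ : ℝ →ₗ[ℚ] ℚ, φ r = 1 := by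
  obtain ⟨φ, h⟩ := Module.Projective.exists_dual_eq_one ℚ hr
  exact ⟨φ, h⟩

namespace QS

variable (S : QS L N)

theorem ind {P : L → Prop} (h0 : ∀ (r : ℝ) n, P (r • S.i n)) (h1 : ∀ x y, P x → P y → P (x + y))
    (x : L) : P x := by
  have hx : x ∈ Submodule.span ℝ (Set.range S.i) := S.span ▸ Submodule.mem_top
  suffices ∀ r : ℝ, P (r • x) by simpa using this 1
  induction hx using Submodule.span_induction with
  | mem x hx => obtain ⟨n, rfl⟩ := hx; exact fun r => h0 r n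
  | zero => intro r; simpa using h0 0 0
  | add x y _ _ hx hy => intro r; rw [smul_add]; exact h1 _ _ (hx r) (hy r)
  | smul a x _ hx => intro r; rw [smul_smul]; exact hx _

theorem mem_span (x : L) : x ∈ Submodule.span ℝ (Set.range fun φ => S.i (S.p φ x)) := by
  classical
  let B := Module.Basis.ofVectorSpace ℚ ℝ
  suffices ∃ s : Finset _, ∀ t, s ⊆ t → x = ∑ j ∈ t, B j • S.i (S.p (B.coord j) x) by
    obtain ⟨s, hs⟩ := this
    nth_rw 2 [hs s subset_rfl]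
    exact Submodule.sum_mem _ fun j _ => Submodule.smul_mem _ _ (Submodule.subset_span ⟨_, rfl⟩)
  induction x using S.ind with
  | h0 r n =>
    refine ⟨(B.repr r).support, fun t ht => ?_⟩
    simp only [S.pi, map_smul, Module.Basis.coord_apply, smul_comm (B _), ← smul_assoc,
      ← Finset.sum_smul]
    congr 1
    conv_lhs => rw [← B.linearCombination_repr r, Finsupp.linearCombination_apply,
      Finsupp.sum_of_support_subset _ ht _ (by simp)]
  | h1 x y hx hy =>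
    obtain ⟨s, hs⟩ := hx
    obtain ⟨u, hu⟩ := hy
    refine ⟨s ∪ u, fun t ht => ?_⟩
    simp only [map_add, smul_add, Finset.sum_add_distrib]
    rw [← hs t (Finset.union_subset_left ht), ← hu t (Finset.union_subset_right ht)]

theorem p_lie (φ) (x : L) (n : N) : S.i (S.p φ ⁅x, S.i n⁆) = ⁅S.i (S.p φ x), S.i n⁆ := by
  induction x using S.ind with
  | h0 r m => rw [smul_lie, ← S.lie, S.pi, S.pi, ← S.lie, smul_lie]
  | h1 x y hx hy => simp only [add_lie, map_add, hx, hy]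

theorem p_lie' (φ) (x : L) (n : N) : S.i (S.p φ ⁅S.i n, x⁆) = ⁅S.i n, S.i (S.p φ x)⁆ := by
  rw [← lie_skew, map_neg, map_neg, p_lie, lie_skew]

theorem p_i (φ) (n : N) : S.p φ (S.i n) = φ 1 • n := by simpa using S.pi φ 1 n

/-- rational subspaces -/
def Rat (U : Submodule ℝ L) : Prop := ∀ φ x, x ∈ U → S.i (S.p φ x) ∈ U

theorem Rat.le {S : QS L N} {U V : Submodule ℝ L} (hU : S.Rat U)
    (h : ∀ n, S.i n ∈ U → S.i n ∈ V) : U ≤ V := fun x hx =>
  (Submodule.span_le.2 (by rintro _ ⟨φ, rfl⟩; exact h _ (hU φ x hx))) (S.mem_span x)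

theorem rat_top : S.Rat ⊤ := fun _ _ _ => trivial

theorem rat_bot : S.Rat ⊥ := fun _ x hx => by simp [show x = 0 from hx]

theorem rat_cent {U V C : Submodule ℝ L} (hU : S.Rat U) (hV : S.Rat V)
    (hC : ∀ x, x ∈ C ↔ ∀ u ∈ U, ⁅x, u⁆ ∈ V) : S.Rat C := by
  intro φ x hx
  rw [hC] at hx ⊢
  have : U ≤ V.comap (LieAlgebra.ad ℝ L (S.i (S.p φ x))) := hU.le fun n hn => by
    simpa [← S.p_lie] using hV φ _ (hx _ hn)
  exact fun u hu => this hu

theorem rat_br {U V C : Submodule ℝ L} (hU : S.Rat U) (hV : S.Rat V)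
    (h1 : ∀ u ∈ U, ∀ v ∈ V, ⁅u, v⁆ ∈ C)
    (h2 : C ≤ Submodule.span ℝ {x | ∃ u ∈ U, ∃ v ∈ V, x = ⁅u, v⁆}) : S.Rat C := by
  let T := Submodule.span ℝ {x | ∃ n, S.i n = x ∧ x ∈ C}
  have h3 : C ≤ T := h2.trans (Submodule.span_le.2 (by
    rintro _ ⟨u, hu, v, hv, rfl⟩
    have : V ≤ T.comap (LieAlgebra.ad ℝ L u) := hV.le fun n hn => by
      have : U ≤ T.comap (LieAlgebra.ad ℝ L (S.i n)) := hU.le fun m hm => by
        have : ⁅S.i m, S.i n⁆ ∈ T := Submodule.subset_span ⟨_, S.lie m n, h1 _ hm _ hn⟩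
        rw [← lie_skew] at this
        exact (neg_mem_iff (H := T)).1 this
      have : ⁅S.i n, u⁆ ∈ T := this hu
      rw [← lie_skew] at this
      exact (neg_mem_iff (H := T)).1 this
    exact this hv))
  intro φ x hx
  have hx' := h3 hx
  clear hx
  suffices ∀ r : ℝ, S.i (S.p φ (r • x)) ∈ C by simpa using this 1
  induction hx' using Submodule.span_induction with
  | mem x hx =>
    obtain ⟨n, rfl, hn⟩ := hx
    intro r
    rw [S.pi, map_smul]
    exact C.smul_of_tower_mem _ hn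
  | zero => simp
  | add x y _ _ hx hy => intro r; simpa using add_mem (hx r) (hy r)
  | smul a x _ hx => intro r; rw [smul_smul]; exact hx _

theorem inj : Function.Injective S.i := by
  obtain ⟨φ, hφ⟩ := exists_phi' one_ne_zero
  intro a b h
  simpa [S.p_i, hφ] using congrArg (S.p φ) h

theorem iso {M : Type} [LieRing M] [LieAlgebra ℚ M] [Module.Finite ℚ M] [Module.Finite ℚ N]
    (F : M →ₗ[ℚ] L) (h1 : ∀ a b, F ⁅a, b⁆ = ⁅F a, F b⁆) (h2 : ∀ a, F a ∈ Set.range S.i)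
    (h3 : Submodule.span ℝ (Set.range F) = ⊤) (h4 : Module.finrank ℚ M = Module.finrank ℚ N) :
    Nonempty (N ≃ₗ⁅ℚ⁆ M) := by
  obtain ⟨φ, hφ⟩ := exists_phi' one_ne_zero
  have e : ∀ a, S.i (S.p φ (F a)) = F a := fun a => by
    obtain ⟨n, hn⟩ := h2 a
    rw [← hn, S.p_i, hφ, one_smul]
  let G : M →ₗ⁅ℚ⁆ N := ⟨S.p φ ∘ₗ F, fun {a b} => S.inj (by simp [S.lie, e, ← h1])⟩
  have hs : Function.Surjective G := fun n => by
    have : ∀ x ∈ Submodule.span ℝ (Set.range F), ∀ r : ℝ,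
        S.p φ (r • x) ∈ LinearMap.range (S.p φ ∘ₗ F) := fun x hx => by
      induction hx using Submodule.span_induction with
      | mem x hx =>
        obtain ⟨a, rfl⟩ := hx
        intro r
        rw [← e a, S.pi]
        exact Submodule.smul_mem _ _ ⟨a, rfl⟩
      | zero => simp
      | add x y _ _ hx hy => intro r; simpa using add_mem (hx r) (hy r)
      | smul a x _ hx => intro r; rw [smul_smul]; exact hx _
    have := this (S.i n) (h3 ▸ Submodule.mem_top) 1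
    rwa [S.pi, hφ, one_smul] at this
  exact ⟨(LieEquiv.ofBijective G ⟨(LinearMap.injective_iff_surjective_of_finrank_eq_finrank
    (f := G.toLinearMap) h4).2 hs, hs⟩).symm⟩

end QS

theorem form_of {M : Type} [LieRing M] [LieAlgebra ℚ M] [Module.Finite ℚ M] [Module.Finite ℝ L]
    (F : M →ₗ[ℚ] L) (h1 : ∀ a b, F ⁅a, b⁆ = ⁅F a, F b⁆)
    (h3 : Submodule.span ℝ (Set.range F) = ⊤) (h4 : Module.finrank ℚ M = Module.finrank ℝ L) :
    Nonempty (L ≃ₗ⁅ℝ⁆ ℝ ⊗[ℚ] M) := by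
  let G : ℝ ⊗[ℚ] M →ₗ⁅ℝ⁆ L := ⟨F.liftBaseChange ℝ, fun {a b} => by
    change F.liftBaseChange ℝ ⁅a, b⁆ = ⁅F.liftBaseChange ℝ a, F.liftBaseChange ℝ b⁆
    induction a with
    | zero => simp
    | add a a' ha ha' => simp only [add_lie, map_add, ha, ha']
    | tmul r a =>
      induction b with
      | zero => simp
      | add b b' hb hb' => simp only [lie_add, map_add, hb, hb']
      | tmul s b => simp [h1, smul_smul, mul_comm]⟩
  have hs : Function.Surjective G := by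
    rw [← LieHom.coe_toLinearMap, ← LinearMap.range_eq_top, eq_top_iff, ← h3, Submodule.span_le]
    rintro _ ⟨a, rfl⟩
    exact ⟨1 ⊗ₜ a, by simp [G]⟩
  exact ⟨(LieEquiv.ofBijective G ⟨(LinearMap.injective_iff_surjective_of_finrank_eq_finrank
    (f := G.toLinearMap) (by rw [Module.finrank_baseChange, h4])).2 hs, hs⟩).symm⟩

end Pool.Agent.H.MP_b83182_al
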