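import Pool.Agent.H.MP_b83182_al.NT

set_option maxHeartbeats 400000

namespace Pool.Agent.H.MP_b83182_al

open K

theorem h90b {g : K} (h1 : tau g = g) (h2 : g * bar g = 1) :
    ∃ h, h ≠ 0 ∧ tau h = h ∧ h = g * bar h := by
  by_cases h : 1 + g = 0
  · refine ⟨⟨0, 0, 1, 0⟩, fun h => by simpa using congrArg K.c h, by ext <;> simp [tau_ap], ?_⟩
    rw [eq_neg_of_add_eq_zero_right h]
    ext <;> simp [bar_ap]
  · exact ⟨1 + g, h, by simp [h1], by simp [mul_add, h2, add_comm]⟩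

theorem h90t {g : K} (h2 : g * tau g = 1) : ∃ h, h ≠ 0 ∧ h = g * tau h := by
  by_cases h : 1 + g = 0
  · refine ⟨⟨0, 1, 0, 0⟩, fun h => by simpa using congrArg K.b h, ?_⟩
    rw [eq_neg_of_add_eq_zero_right h]
    ext <;> simp [tau_ap]
  · exact ⟨1 + g, h, by simp [mul_add, h2, add_comm]⟩

/-- the invariant -/
def cls (ρ : K) (t : ℚˣ ⧸ Hn) : Prop :=
  ∃ (h : K) (u : ℚˣ), h ≠ 0 ∧ tau h = h ∧ h = ρ * tau ρ * bar h ∧ h * bar h = rat u ∧ t = u

theorem cls_ex {ρ : K} (hρ : nm ρ = 1) : ∃ t : T, cls ρ t := by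
  have e := nm_eq ρ
  rw [hρ, map_one] at e
  obtain ⟨h, h0, h1, h2⟩ := h90b (g := ρ * tau ρ) (by simp [mul_comm]) e.symm
  have hb : h.b = 0 := by have := congrArg K.b h1; simp [tau_ap] at this; linarith
  have hd : h.d = 0 := by have := congrArg K.d h1; simp [tau_ap] at this; linarith
  have h3 : h * bar h = rat (h.a ^ 2 + 3 * h.c ^ 2) := by
    rw [rat_ap]
    ext <;> simp [bar_ap, hb, hd] <;> ring
  have h4 : h.a ^ 2 + 3 * h.c ^ 2 ≠ 0 := fun h5 => by
    rw [h5, map_zero] at h3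
    simp [h0] at h3
  have r0 : ρ ≠ 0 := by rintro rfl; simp [nm] at hρ
  have h5 : h / ρ * tau (h / ρ) = rat (h.a ^ 2 + 3 * h.c ^ 2) := by
    have : tau ρ ≠ 0 := by simpa using r0
    rw [← h3, map_div₀, h1]
    field_simp
    linear_combination h2
  refine ⟨⟨(Units.mk0 _ h4 : ℚˣ), mem_T _ h.a h.c (h / ρ).a (h / ρ).b (h / ρ).c (h / ρ).d rfl
    ?_ ?_⟩, h, _, h0, h1, h2, h3, rfl⟩
  · have := congrArg K.a h5
    simp only [mul_a, tau_ap, rat_ap] at this
    simp only [Units.val_mk0]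
    linear_combination this
  · have := congrArg K.c h5
    simp only [mul_c, tau_ap, rat_ap] at this
    linear_combination this / 2

theorem cls_eqv {ρ ρ' : K} {t} (h1 : cls ρ t) (h2 : cls ρ' t) :
    ∃ k l : K, k ≠ 0 ∧ l ≠ 0 ∧ ρ' = ρ * (bar k / k) * (tau l / l) := by
  obtain ⟨h, u, a0, a1, a2, a3, rfl⟩ := h1
  obtain ⟨h', u', b0, b1, b2, b3, e⟩ := h2
  obtain ⟨k, q, hk, hq⟩ := QuotientGroup.eq.1 e
  have hu : (u' : ℚ) = u * (nm k * q ^ 2) := by rw [← hq]; simp
  have q0 : q ≠ 0 := fun h => u'.ne_zero (by simp [hu, h])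
  have q1 : rat q ≠ 0 := by simpa using q0
  have tq : tau (rat q) = rat q := by ext <;> simp [tau_ap, rat_ap]
  have bq : bar (rat q) = rat q := by ext <;> simp [bar_ap, rat_ap]
  have n1 : bar h ≠ 0 := by simpa using a0
  have n2 : bar k ≠ 0 := by simpa using hk
  have n3 : tau k ≠ 0 := by simpa using hk
  have n4 : bar (tau k) ≠ 0 := by simpa using hk
  have n5 : bar h' ≠ 0 := by simpa using b0
  obtain ⟨y, y0, y1, y2⟩ := h90b (g := h' / (h * (k * tau k) * rat q))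
    (by simp only [map_div₀, map_mul, a1, b1, tq, tau_tau, mul_comm]) (by
      rw [hu, map_mul, map_mul, nm_eq, map_pow, ← a3] at b3
      simp only [map_div₀, map_mul, bq] at b3 ⊢
      field_simp
      linear_combination b3)
  have n6 : bar y ≠ 0 := by simpa using y0
  have y3 := congrArg bar y2
  simp only [map_div₀, map_mul, bq, bar_bar] at y3
  have r0 : ρ ≠ 0 := by rintro rfl; exact a0 (by simpa using a2)
  have n7 : tau ρ ≠ 0 := by simpa using r0
  obtain ⟨l, l0, l1⟩ := h90t (g := ρ' / (ρ * (k * y / bar (k * y)))) (by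
    simp only [map_div₀, map_mul, tau_bar, y1]
    have c1 : ρ' * tau ρ' = h' / bar h' := by field_simp; linear_combination -b2
    have c2 : tau ρ = h / bar h / ρ := by field_simp; linear_combination -a2
    have c3 : h' = y * (h * (k * tau k) * rat q) / bar y := by
      field_simp at y2 ⊢; linear_combination -y2
    have c4 : bar h' = bar y * (bar h * (bar k * bar (tau k)) * rat q) / y := by
      field_simp at y3 ⊢; linear_combination -y3
    rw [div_mul_div_comm, c1, c2, c4, c3]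
    field_simp)
  refine ⟨bar (k * y), tau l, by simp [hk, y0], by simpa using l0, ?_⟩
  have n8 : tau l ≠ 0 := by simpa using l0
  simp only [bar_bar, tau_tau, map_mul] at l1 ⊢
  field_simp at l1 ⊢
  linear_combination -l1

theorem reps : ∃ R : Set K, R.Finite ∧ (∀ ρ ∈ R, nm ρ = 1) ∧ ∀ ρ, nm ρ = 1 → ∃ ρ' ∈ R,
    ∃ k l : K, k ≠ 0 ∧ l ≠ 0 ∧ ρ' = ρ * (bar k / k) * (tau l / l) := by
  classical
  let f : T → K := fun t => if h : ∃ ρ, nm ρ = 1 ∧ cls ρ t then h.choose else 1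
  refine ⟨Set.range f, Set.finite_range f, ?_, fun ρ hρ => ?_⟩
  · rintro _ ⟨t, rfl⟩
    simp only [f]
    split_ifs with h
    · exact h.choose_spec.1
    · simp [nm]
  · obtain ⟨t, ht⟩ := cls_ex hρ
    have h : ∃ ρ, nm ρ = 1 ∧ cls ρ t := ⟨ρ, hρ, ht⟩
    refine ⟨f t, ⟨t, rfl⟩, cls_eqv ht ?_⟩
    simp only [f, dif_pos h]
    exact h.choose_spec.2

end Pool.Agent.H.MP_b83182_al
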