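import Pool.Agent.H.MP_b83182_al.Sub

set_option maxHeartbeats 400000

namespace Pool.Agent.H.MP_b83182_al

open K

variable {N : Type} [LieRing N] [LieAlgebra ℚ N] (S : QS L N)

theorem th_ne : th ≠ 0 := fun h => by simpa [h] using th_sq

theorem lifts : ∃ (s : ℝ) (E F : N), s ≠ 0 ∧ (S.i E).e = s ∧ (S.i E).f = 0 ∧ (S.i E).w = 0 ∧
    (S.i F).e = 0 ∧ (S.i F).f = s ∧ (S.i F).w = 0 := by
  obtain ⟨φ, hφ⟩ : ∃ φ, (S.i (S.p φ f0)).f ≠ 0 := by
    by_contra h
    have : Submodule.span ℝ (Set.range fun φ => S.i (S.p φ f0)) ≤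
        sub false true false false false false := Submodule.span_le.2 (by
      rintro _ ⟨φ, rfl⟩
      simpa [mem_sub] using not_exists.1 h φ)
    simpa [mem_sub, f0] using this (S.mem_span f0)
  have hF : (S.i (S.p φ f0)).e = 0 := (rH S φ f0 (by simp [mem_sub, f0])).1 rfl
  set E := S.i (S.p φ e0) with hE
  set F := S.i (S.p φ f0) with hF'
  have key : ∀ w : A, E.e • (j ps * w) + E.f • w = F.f • (j ps * w) ∧
      bR E.w w - bR w E.w = bR F.w (j ps * w) - bR (j ps * w) F.w := by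
    intro w
    have hw : w ∈ Submodule.span ℝ (LW S : Set A) := LW_span S ▸ Submodule.mem_top
    induction hw using Submodule.span_induction with
    | mem w hw =>
      obtain ⟨n', hn', e'⟩ := (mem_LW S).1 (LW_ps S w hw)
      obtain ⟨n, hn, rfl⟩ := (mem_LW S).1 hw
      have : ⁅e0, S.i n⁆ = ⁅f0, S.i n'⁆ := by
        refine G.ext ?_ ?_ ?_ ?_ ?_ ?_ ?_ <;> simp [e0, f0, hn, hn', e']
      have := congrArg (fun x => S.i (S.p φ x)) this
      simp only [S.p_lie, ← hE, ← hF'] at this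
      exact ⟨by simpa [hn, hn', hF, e'] using congrArg G.v this,
        by simpa [e'] using congrArg G.z this⟩
    | zero => simp
    | add x y _ _ hx hy =>
      simp only [mul_add, smul_add, map_add, LinearMap.add_apply]
      exact ⟨by linear_combination (exp := 1) hx.1 + hy.1, by linear_combination (exp := 1) hx.2 + hy.2⟩
    | smul a x _ hx =>
      simp only [mul_smul_comm, map_smul, LinearMap.smul_apply, ← smul_sub, smul_comm _ a,
        ← smul_add, hx.1, hx.2, and_self]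
  have a1 := congrArg (fun x : A => x.1.1) (key 1).1
  simp [j_ap, ps, phi_ap, th, Complex.ext_iff] at a1
  have b1 := (key ((0, 0), (1, 0))).2
  have b2 := (key ((0, 0), (0, 1))).2
  have b3 := (key ((1, 0), (0, 0))).2
  have b4 := (key ((Complex.I, 0), (0, 0))).2
  have b5 := (key ((0, 1), (0, 0))).2
  have b6 := (key ((0, Complex.I), (0, 0))).2
  simp [bR_ap, j_ap, conj_phi, Prod.ext_iff] at b1 b2 b3 b4 b5 b6
  have c1 := congrArg (starRingEnd ℂ) b2.1
  have c2 := congrArg (starRingEnd ℂ) b2.2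
  simp only [map_mul, conj_phi, Complex.conj_conj] at c1 c2
  simp [phi_ap, bar_ap, tau_ap, ps] at b1 b3 b4 b5 b6 c1 c2
  have t := th_ne
  have i := Complex.I_ne_zero
  have f1 : F.w.1.1 = 0 := mul_left_cancel₀ t (by linear_combination (c1 - b1.1) / 2)
  have f2 : F.w.1.2 = 0 := mul_left_cancel₀ t (by linear_combination (c2 - b1.2) / 2)
  have f3 : F.w.2.2 + F.w.2.1 = 0 := mul_left_cancel₀ (mul_ne_zero i t)
    (by linear_combination (b5 - b3) / 2)
  have f4 : F.w.2.2 - F.w.2.1 = 0 := mul_left_cancel₀ (mul_ne_zero i (mul_ne_zero i t))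
    (by linear_combination (b4 - b6) / 2)
  have f5 : F.w.2.1 = 0 := by linear_combination (f3 - f4) / 2
  have f6 : F.w.2.2 = 0 := by linear_combination (f3 + f4) / 2
  rw [f5, f6] at b3 b4
  have g4 : E.w.2.2 - E.w.2.1 = 0 := mul_left_cancel₀ i (by linear_combination b4)
  refine ⟨F.f, _, _, hφ, a1.2, ?_, ?_, hF, rfl, Prod.ext (Prod.ext f1 f2) (Prod.ext f5 f6)⟩
  · have := a1.1
    rw [a1.2] at this
    linarith
  · refine Prod.ext (Prod.ext ?_ ?_) (Prod.ext ?_ ?_)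
    · simpa [f1] using b1.1
    · simpa [f2] using b1.2
    · show E.w.2.1 = 0
      linear_combination (-b3 - g4) / 2
    · show E.w.2.2 = 0
      linear_combination (-b3 + g4) / 2

theorem root3 {w : A} (h1 : w ∈ LW S) (h2 : (Real.sqrt 3 : ℝ) • w ∈ LW S) : w = 0 := by
  obtain ⟨φ, e1, e2⟩ := exists_phi (r := Real.sqrt 3) fun q hq =>
    (Nat.prime_three.irrational_sqrt) ⟨q, by simpa using hq.symm⟩
  have a := PW_ap S φ 1 _ h2
  rw [one_smul, PW_ap S φ _ _ h1, e1] at a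
  simpa [e2] using a

/-- the real square root of three -/
def s3 : K := ⟨0, 0, 0, -1⟩

theorem phi_s3 : phi s3 = (Real.sqrt 3 : ℝ) := by
  simp [phi_ap, s3, th, ← mul_assoc, mul_comm Complex.I, mul_assoc]

theorem base : ∃ a ∈ LW S, a.1.1 ≠ 0 ∧ a.1.2 ≠ 0 ∧ a.2.1 ≠ 0 ∧ a.2.2 ≠ 0 := by
  have ex : ∀ T : A →ₗ[ℝ] ℂ, T 1 ≠ 0 → ∃ w ∈ LW S, T w ≠ 0 := fun T hT => by
    by_contra h
    push Not at h
    have : Submodule.span ℝ (LW S : Set A) ≤ LinearMap.ker T := Submodule.span_le.2 h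
    exact hT (this (LW_span S ▸ Submodule.mem_top))
  obtain ⟨x, hx, x1⟩ := ex (LinearMap.fst ℝ ℂ ℂ ∘ₗ LinearMap.fst ℝ _ _) (by simp)
  obtain ⟨y, hy, y1⟩ := ex (LinearMap.fst ℝ ℂ ℂ ∘ₗ LinearMap.snd ℝ _ _) (by simp)
  simp only [LinearMap.comp_apply, LinearMap.fst_apply, LinearMap.snd_apply] at x1 y1
  refine ⟨_, add_mem (LW_j S (1, 0) x hx) (LW_j S (0, 1) y hy), by simpa [j_ap] using x1,
    fun h => x1 ?_, by simpa [j_ap] using y1, fun h => y1 ?_⟩
  · have := root3 S (LW_j S (1, 0) x hx) (by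
      convert LW_j S (s3, 0) x hx using 1
      simp [j_ap] at h
      ext <;> simp [j_ap, h, phi_s3])
    simpa [j_ap] using congrArg (fun x : A => x.1.1) this
  · have := root3 S (LW_j S (0, 1) y hy) (by
      convert LW_j S (0, s3) y hy using 1
      simp [j_ap] at h
      ext <;> simp [j_ap, h, phi_s3])
    simpa [j_ap] using congrArg (fun x : A => x.2.1) this

/-- central vectors -/
noncomputable def zv : ℂ × ℂ →ₗ[ℝ] L where
  toFun z := ⟨0, 0, 0, 0, 0, 0, z⟩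
  map_add' _ _ := by refine G.ext ?_ ?_ ?_ ?_ ?_ ?_ ?_ <;> simp
  map_smul' _ _ := by refine G.ext ?_ ?_ ?_ ?_ ?_ ?_ ?_ <;> simp

theorem zv_ap (z : ℂ × ℂ) : zv z = ⟨0, 0, 0, 0, 0, 0, z⟩ := rfl

/-- central lattice -/
noncomputable def gz (a : A) (m n : K) : ℂ × ℂ :=
  (phi m * (a.1.1 * a.2.1) + phi (tau n) * ((starRingEnd ℂ) a.1.1 * a.2.2),
    phi n * (a.1.2 * a.2.1) + phi (tau m) * ((starRingEnd ℂ) a.1.2 * a.2.2))

theorem gz_mem {a : A} (ha : a ∈ LW S) (m n : K) : zv (gz a m n) ∈ LinearMap.range S.i := by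
  have h : ∀ k l : K, zv (bR (j (k, 0) * a) (j (0, l) * a)) ∈ LinearMap.range S.i := fun k l => by
    obtain ⟨x, hx, e1⟩ := (mem_LW S).1 (LW_j S (k, 0) a ha)
    obtain ⟨y, hy, e2⟩ := (mem_LW S).1 (LW_j S (0, l) a ha)
    refine ⟨⁅x, y⁆, ?_⟩
    rw [S.lie]
    refine G.ext ?_ ?_ ?_ ?_ ?_ ?_ ?_ <;> simp [hx, hy, e1, e2, bR_ap, j_ap, zv_ap]
  have h3 : phi s3 ^ 2 = 3 := by
    rw [phi_s3, ← Complex.ofReal_pow, Real.sq_sqrt (by norm_num)]; simp
  have t1 : tau s3 = -s3 := by ext <;> simp [tau_ap, s3]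
  have t2 : bar s3 = s3 := by ext <;> simp [bar_ap, s3]
  have := add_mem (h 1 ((m + n) / 2)) (h s3 ((m - n) * s3 / 6))
  rw [← map_add] at this
  convert this using 2
  ext <;> simp [gz, bR_ap, j_ap, conj_phi, t1, t2, map_ofNat]
  · linear_combination (-(phi m - phi n) / 6 * a.1.1 * a.2.1 +
      (phi (tau m) - phi (tau n)) / 6 * (starRingEnd ℂ) a.1.1 * a.2.2) * h3
  · linear_combination ((phi m - phi n) / 6 * a.1.2 * a.2.1 -
      (phi (tau m) - phi (tau n)) / 6 * (starRingEnd ℂ) a.1.2 * a.2.2) * h3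

theorem ex_ok : ∃ a ∈ LW S, ∃ ρ, nm ρ = 1 ∧ Ok ρ a := by
  obtain ⟨a, ha, n1, n2, n3, n4⟩ := base S
  let g : Fin 5 → ℂ × ℂ := ![gz a 1 0, gz a ⟨0, 1, 0, 0⟩ 0, gz a ⟨0, 0, 1, 0⟩ 0,
    gz a ⟨0, 0, 0, 1⟩ 0, gz a 0 1]
  have hg : ∀ i, ∃ n, S.i n = zv (g i) := fun i => by
    fin_cases i <;> exact gz_mem S ha _ _
  choose n hn using hg
  have : ¬ LinearIndependent ℝ g := fun h => by simpa using h.fintype_card_le_finrank
  obtain ⟨r, hr, i, hi⟩ := Fintype.not_linearIndependent_iff.1 this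
  obtain ⟨φ, hφ⟩ := exists_phi' hi
  have e := congrArg (fun z => (S.i (S.p φ (zv z))).z) hr
  simp only [map_sum, map_smul zv, ← hn, S.pi, map_zero, map_smul S.i] at e
  simp only [hn, Fin.sum_univ_five, G.add_z, G.smul_z, zv_ap, G.zero_z] at e
  set m : K := ⟨φ (r 0), φ (r 1), φ (r 2), φ (r 3)⟩ with hm
  have e' : gz a m (rat (φ (r 4))) = 0 := by
    rw [← e]
    ext <;> simp [g, gz, phi_ap, tau_ap, rat_ap, hm, Rat.smul_def] <;> ring
  have c2 : (starRingEnd ℂ) a.1.2 ≠ 0 := by simpa using n2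
  have c1 : (starRingEnd ℂ) a.1.1 ≠ 0 := by simpa using n1
  have t : tau (rat (φ (r 4))) = rat (φ (r 4)) := by ext <;> simp [tau_ap, rat_ap]
  simp only [gz, t, Prod.mk_eq_zero] at e'
  have q : phi (rat (φ (r 4))) ≠ 0 := fun h => by
    have h1 : φ (r 4) = 0 := by simpa using h
    have h0 : m = 0 := by simpa [h1, n1, n3] using e'.1
    have : ∀ i, φ (r i) = 0 := fun i => by
      fin_cases i
      exacts [congrArg K.a h0, congrArg K.b h0, congrArg K.c h0, congrArg K.d h0, h1]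
    simp [this] at hφ
  have ok : Ok (-m / rat (φ (r 4))) a := by
    refine ⟨n1, n2, n3, n4, ?_, ?_⟩
    · rw [map_div₀, map_neg]; field_simp; linear_combination e'.1
    · rw [map_div₀, t, map_div₀, map_neg, map_neg]; field_simp; linear_combination e'.2
  refine ⟨a, ha, _, ?_, ok⟩
  generalize -m / rat (φ (r 4)) = ρ at ok
  have k1 := congrArg (starRingEnd ℂ) ok.h1
  have k2 := congrArg (starRingEnd ℂ) ok.h2
  simp only [map_mul, Complex.conj_conj, conj_phi] at k1 k2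
  have c3 : (starRingEnd ℂ) a.2.1 ≠ 0 := by simpa using n3
  have c4 : (starRingEnd ℂ) a.2.2 ≠ 0 := by simpa using n4
  have : phi (rat (nm ρ)) = phi (rat 1) := by
    rw [nm_eq]
    simp only [map_mul, map_one]
    have u1 : phi ρ = (starRingEnd ℂ) a.1.1 * a.2.2 / (a.1.1 * a.2.1) := by
      rw [ok.h1]; field_simp
    have u2 : phi (tau ρ) = a.1.2 * a.2.1 / ((starRingEnd ℂ) a.1.2 * a.2.2) := by
      rw [ok.h2]; field_simp
    have u3 : phi (bar ρ) = a.1.1 * (starRingEnd ℂ) a.2.2 /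
        ((starRingEnd ℂ) a.1.1 * (starRingEnd ℂ) a.2.1) := by
      rw [k1]; field_simp
    have u4 : phi (bar (tau ρ)) = (starRingEnd ℂ) a.1.2 * (starRingEnd ℂ) a.2.1 /
        (a.1.2 * (starRingEnd ℂ) a.2.2) := by
      rw [k2]; field_simp
    rw [u1, u2, u3, u4]
    field_simp
  exact rat.injective (phi.injective this)

theorem Ok.move {ρ k l : K} {a : A} (h : Ok ρ a) (hk : k ≠ 0) (hl : l ≠ 0) :
    Ok (ρ * (bar k / k) * (tau l / l)) (j (k, l) * a) := by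
  have := h.n1; have := h.n2; have := h.n3; have := h.n4
  have k1 : phi k ≠ 0 := by simpa using hk
  have k2 : phi (tau k) ≠ 0 := by simpa using hk
  have l1 : phi l ≠ 0 := by simpa using hl
  have l2 : phi (tau l) ≠ 0 := by simpa using hl
  refine ⟨?_, ?_, ?_, ?_, ?_, ?_⟩ <;> simp [j_ap, *, conj_phi]
  · field_simp; linear_combination phi (bar k) * h.h1
  · field_simp; linear_combination phi (bar (tau k)) * h.h2

theorem iso_of [Module.Finite ℚ N] (hN : Module.finrank ℚ N = 24) {ρ : K} {a : A}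
    (ha : a ∈ LW S) (h : Ok ρ a) : Nonempty (N ≃ₗ⁅ℚ⁆ M ρ) := by
  obtain ⟨s, E, F, hs, e1, e2, e3, f1, f2, f3⟩ := lifts S
  obtain ⟨φ, hφ⟩ := exists_phi' one_ne_zero
  let σ : K × K →ₗ[ℚ] N := S.p φ ∘ₗ wv.restrictScalars ℚ ∘ₗ LinearMap.mulRight ℚ a ∘ₗ
    j.toRatAlgHom.toLinearMap
  have hσ : ∀ x, S.i (σ x) ∈ sub true true true false false false := fun x =>
    rW S φ (wv (j x * a)) (by simp [mem_sub, wv_ap])
  obtain ⟨Φ, h1, h2, h3⟩ := emb h s hs (S.i E) (S.i F) (S.i ∘ₗ σ) e1 e2 e3 f1 f2 f3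
    (fun x => (hσ x).1 rfl) (fun x => (hσ x).2.1 rfl) (fun x => (hσ x).2.2.1 rfl) fun x => by
      have := PW_ap S φ 1 _ (LW_j S x a ha)
      rw [one_smul, hφ, Rat.cast_one, one_smul] at this
      exact this
  refine S.iso Φ h1 (fun m => ?_) h2 (by rw [frM, hN])
  obtain ⟨z, hz⟩ := gz_mem S ha m.z 0
  refine ⟨m.e • E + m.f • F + m.c • ⁅E, F⁆ + m.d • ⁅E, ⁅E, F⁆⁆ + σ m.w + ⁅F, σ m.v⁆ + z, ?_⟩
  simp [h3, S.lie, hz, zv_ap, gz, zm]

theorem form {ρ : K} (hρ : nm ρ = 1) : Nonempty (L ≃ₗ⁅ℝ⁆ TensorProduct ℚ ℝ (M ρ)) := by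
  have e := nm_eq ρ
  rw [hρ, map_one] at e
  obtain ⟨h, h0, h1, h2⟩ := h90b (g := ρ * tau ρ) (by simp [mul_comm]) e.symm
  have r0 : ρ ≠ 0 := by rintro rfl; simp at e
  have ok : Ok ρ ((1, phi h), (1, phi ρ)) := by
    refine ⟨by simp, by simpa using h0, by simp, by simpa using r0, by simp, ?_⟩
    simp only [conj_phi, mul_one, ← map_mul]
    rw [h2, ← h2]
    congr 1
    linear_combination h2
  obtain ⟨Φ, h1, h2, -⟩ := emb ok 1 one_ne_zero e0 f0 (wv.restrictScalars ℚ ∘ₗ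
    LinearMap.mulRight ℚ ((1, phi h), (1, phi ρ)) ∘ₗ j.toRatAlgHom.toLinearMap) rfl rfl rfl rfl rfl
    rfl (fun _ => rfl) (fun _ => rfl) (fun _ => rfl) (fun _ => rfl)
  exact form_of Φ h1 h2 (by rw [frM, frL])

end Pool.Agent.H.MP_b83182_al
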