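import Pool.Agent.H.MP_b83182_al.G

set_option maxHeartbeats 400000

namespace Pool.Agent.H.MP_b83182_al

open K

theorem gen (U : Submodule ℚ (K × K)) (h1 : 1 ∈ U) (h : ∀ y ∈ U, ps * y ∈ U) (y : K × K) :
    y ∈ U := by
  have p0 : ((⟨1, 0, 0, 0⟩, ⟨1, 0, 0, 0⟩) : K × K) ∈ U := h1
  have p1 : ((⟨-2, 1, 0, -1⟩, ⟨2, 1, 1, 0⟩) : K × K) ∈ U := by
    convert h _ p0 using 1
    ext <;> simp [ps] <;> norm_num
  have p2 : ((⟨6, -4, 2, 4⟩, ⟨0, 4, 4, 2⟩) : K × K) ∈ U := by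
    convert h _ p1 using 1
    ext <;> simp [ps] <;> norm_num
  have p3 : ((⟨-20, 20, -12, -12⟩, ⟨-16, 2, 6, 12⟩) : K × K) ∈ U := by
    convert h _ p2 using 1
    ext <;> simp [ps] <;> norm_num
  have p4 : ((⟨56, -96, 56, 32⟩, ⟨-52, -48, -16, 32⟩) : K × K) ∈ U := by
    convert h _ p3 using 1
    ext <;> simp [ps] <;> norm_num
  have p5 : ((⟨-112, 416, -240, -64⟩, ⟨-8, -244, -116, 0⟩) : K × K) ∈ U := by
    convert h _ p4 using 1
    ext <;> simp [ps] <;> norm_num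
  have p6 : ((⟨0, -1664, 960, 0⟩, ⟨576, -496, -240, -360⟩) : K × K) ∈ U := by
    convert h _ p5 using 1
    ext <;> simp [ps] <;> norm_num
  have p7 : ((⟨1664, 6208, -3584, 960⟩, ⟨2368, 664, 456, -1456⟩) : K × K) ∈ U := by
    convert h _ p6 using 1
    ext <;> simp [ps] <;> norm_num
  have : y = (((475397/699121) * y.1.a +
      (-173199/699121) * y.1.b +
      (-304291/699121) * y.1.c +
      (-797017/699121) * y.1.d +
      (223724/699121) * y.2.a +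
      (85380/699121) * y.2.b +
      (-205852/699121) * y.2.c +
      (366680/699121) * y.2.d : ℚ)) • ((⟨1, 0, 0, 0⟩, ⟨1, 0, 0, 0⟩) : K × K) +
    (((-65884/699121) * y.1.a +
      (1040443/1398242) * y.1.b +
      (901350/699121) * y.1.c +
      (202273/1398242) * y.1.d +
      (65884/699121) * y.2.a +
      (-11302/699121) * y.2.b +
      (27802/699121) * y.2.c +
      (101472/699121) * y.2.d : ℚ)) • ((⟨-2, 1, 0, -1⟩, ⟨2, 1, 1, 0⟩) : K × K) +
    (((-167283/699121) * y.1.a +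
      (-1192785/2796484) * y.1.b +
      (-1036853/1398242) * y.1.c +
      (1239031/2796484) * y.1.d +
      (167283/699121) * y.2.a +
      (39393/699121) * y.2.b +
      (-100571/699121) * y.2.c +
      (276284/699121) * y.2.d : ℚ)) • ((⟨6, -4, 2, 4⟩, ⟨0, 4, 4, 2⟩) : K × K) +
    (((46258/699121) * y.1.a +
      (107125/5592968) * y.1.b +
      (24818/699121) * y.1.c +
      (-803859/5592968) * y.1.d +
      (-46258/699121) * y.2.a +
      (-109691/1398242) * y.2.b +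
      (252009/1398242) * y.2.c +
      (-78164/699121) * y.2.d : ℚ)) • ((⟨-20, 20, -12, -12⟩, ⟨-16, 2, 6, 12⟩) : K × K) +
    (((57561/2796484) * y.1.a +
      (122985/2796484) * y.1.b +
      (215441/2796484) * y.1.c +
      (-70273/2796484) * y.1.d +
      (-57561/2796484) * y.2.a +
      (-49401/2796484) * y.2.b +
      (86387/2796484) * y.2.c +
      (-18895/699121) * y.2.d : ℚ)) • ((⟨56, -96, 56, 32⟩, ⟨-52, -48, -16, 32⟩) : K × K) +
    (((-5009/699121) * y.1.a +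
      (-48733/5592968) * y.1.b +
      (-22887/1398242) * y.1.c +
      (67201/5592968) * y.1.d +
      (5009/699121) * y.2.a +
      (8729/5592968) * y.2.b +
      (-53083/5592968) * y.2.c +
      (17151/1398242) * y.2.d : ℚ)) • ((⟨-112, 416, -240, -64⟩, ⟨-8, -244, -116, 0⟩) : K × K) +
    (((1209/2796484) * y.1.a +
      (-9337/11185936) * y.1.b +
      (-5657/5592968) * y.1.c +
      (-14321/11185936) * y.1.d +
      (-1209/2796484) * y.2.a +
      (-9457/5592968) * y.2.b +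
      (16637/5592968) * y.2.c +
      (-10973/5592968) * y.2.d : ℚ)) • ((⟨0, -1664, 960, 0⟩, ⟨576, -496, -240, -360⟩) : K × K) +
    (((393/699121) * y.1.a +
      (16665/22371872) * y.1.b +
      (851/699121) * y.1.c +
      (-18159/22371872) * y.1.d +
      (-393/699121) * y.2.a +
      (-6033/11185936) * y.2.b +
      (13773/11185936) * y.2.c +
      (-821/699121) * y.2.d : ℚ)) • ((⟨1664, 6208, -3584, 960⟩, ⟨2368, 664, 456, -1456⟩) : K × K) := by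
    ext <;> simp [smul_eq] <;> ring
  rw [this]
  exact add_mem (add_mem (add_mem (add_mem (add_mem (add_mem (add_mem (U.smul_mem _ p0)
    (U.smul_mem _ p1))
    (U.smul_mem _ p2))
    (U.smul_mem _ p3))
    (U.smul_mem _ p4))
    (U.smul_mem _ p5))
    (U.smul_mem _ p6))
    (U.smul_mem _ p7)

theorem trace_rat {X : Type} [AddCommGroup X] [Module ℝ X] [Module.Finite ℝ X] (Λ : Set X)
    (P : (ℝ →ₗ[ℚ] ℚ) → X →+ X) (hP : ∀ φ (r : ℝ), ∀ w ∈ Λ, P φ (r • w) = (φ r : ℝ) • w)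
    (hs : Submodule.span ℝ Λ = ⊤) (f : X →ₗ[ℝ] X) (hf : ∀ w ∈ Λ, f w ∈ Λ) :
    ∃ q : ℚ, LinearMap.trace ℝ X f = q := by
  classical
  obtain ⟨b, hb, h1, h2⟩ := exists_linearIndependent ℝ Λ
  haveI := h2.setFinite.fintype
  let B := Module.Basis.mk h2 (by rw [Subtype.range_coe, h1, hs])
  have hB : ∀ i, B i ∈ Λ := fun i => by simpa [B] using hb i.2
  have : ∀ w ∈ Λ, ∀ i, ∃ q : ℚ, B.repr w i = q := fun w hw i => by
    by_contra hn
    obtain ⟨φ, e1, e2⟩ := exists_phi (not_exists.1 hn)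
    have e := hP φ 1 w hw
    rw [one_smul, e1] at e
    nth_rw 1 [← B.sum_repr w] at e
    simp only [map_sum, hP _ _ _ (hB _), Rat.cast_zero, zero_smul] at e
    exact e2 (by exact_mod_cast Fintype.linearIndependent_iff.1 B.linearIndependent _ e i)
  choose q hq using fun i => this _ (hf _ (hB i)) i
  refine ⟨∑ i, q i, ?_⟩
  rw [LinearMap.trace_eq_matrix_trace ℝ B]
  simp [Matrix.trace, LinearMap.toMatrix_apply, hq]

theorem trace_j (x : K × K) :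
    LinearMap.trace ℝ A (LinearMap.mulLeft ℝ (j x)) = 4 * (x.1.a + x.2.a) := by
  change Algebra.trace ℝ A (j x) = _
  simp [Algebra.trace_prod_apply, Algebra.trace_complex_apply, j_ap, phi_ap, bar_ap, tau_ap, th]
  ring

/-- compatibility of the base point with the parameter -/
structure Ok (ρ : K) (a : A) : Prop where
  n1 : a.1.1 ≠ 0
  n2 : a.1.2 ≠ 0
  n3 : a.2.1 ≠ 0
  n4 : a.2.2 ≠ 0
  h1 : (starRingEnd ℂ) a.1.1 * a.2.2 = phi ρ * a.1.1 * a.2.1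
  h2 : a.1.2 * a.2.1 = phi (tau ρ) * (starRingEnd ℂ) a.1.2 * a.2.2

/-- the central lattice -/
noncomputable def zm (a : A) (m : K) : L :=
  ⟨0, 0, 0, 0, 0, 0, (phi m * (a.1.1 * a.2.1), phi (tau m) * ((starRingEnd ℂ) a.1.2 * a.2.2))⟩

theorem Ok.br {ρ : K} {a : A} (h : Ok ρ a) (x y : K × K) :
    bR (j x * a) (j y * a) = (zm a (bQ ρ x y)).z := by
  ext <;> simp [bR_ap, bQ_ap, zm, j_ap, conj_phi]
  · linear_combination phi (bar x.1) * phi (tau y.2) * h.h1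
  · linear_combination phi (bar (tau x.1)) * phi y.2 * h.h2

theorem emb {ρ : K} {a : A} (h : Ok ρ a) (s : ℝ) (hs : s ≠ 0) (E F : L) (σ : K × K →ₗ[ℚ] L)
    (e1 : E.e = s) (e2 : E.f = 0) (e3 : E.w = 0) (f1 : F.e = 0) (f2 : F.f = s) (f3 : F.w = 0)
    (s1 : ∀ x, (σ x).e = 0) (s2 : ∀ x, (σ x).f = 0) (s3 : ∀ x, (σ x).c = 0)
    (s4 : ∀ x, (σ x).w = j x * a) :
    ∃ Φ : M ρ →ₗ[ℚ] L, (∀ x y, Φ ⁅x, y⁆ = ⁅Φ x, Φ y⁆) ∧ Submodule.span ℝ (Set.range Φ) = ⊤ ∧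
      ∀ m, Φ m = m.e • E + m.f • F + m.c • ⁅E, F⁆ + m.d • ⁅E, ⁅E, F⁆⁆ + σ m.w + ⁅F, σ m.v⁆ +
        zm a m.z := by
  let Φ : M ρ →ₗ[ℚ] L :=
    { toFun m := m.e • E + m.f • F + m.c • ⁅E, F⁆ + m.d • ⁅E, ⁅E, F⁆⁆ + σ m.w + ⁅F, σ m.v⁆ +
        zm a m.z
      map_add' x y := by
        have : zm a (x.z + y.z) = zm a x.z + zm a y.z := by ext <;> simp [zm] <;> ring
        simp only [G.add_e, G.add_f, G.add_c, G.add_d, G.add_w, G.add_v, G.add_z, add_smul,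
          map_add, lie_add, this]
        abel
      map_smul' q x := by
        have : zm a (q • x.z) = q • zm a x.z := by ext <;> simp [zm, Rat.smul_def] <;> ring
        have h2 : ∀ y : L, ⁅F, q • y⁆ = q • ⁅F, y⁆ := fun y => by
          rw [← Rat.cast_smul_eq_qsmul ℝ, lie_smul, Rat.cast_smul_eq_qsmul]
        simp only [G.smul_e, G.smul_f, G.smul_c, G.smul_d, G.smul_w, G.smul_v, G.smul_z,
          map_smul, this, h2, smul_add, smul_eq_mul, mul_smul, RingHom.id_apply] }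
  have hΦ : ∀ m, Φ m = m.e • E + m.f • F + m.c • ⁅E, F⁆ + m.d • ⁅E, ⁅E, F⁆⁆ + σ m.w +
      ⁅F, σ m.v⁆ + zm a m.z := fun _ => rfl
  have c1 : ∀ m, (Φ m).e = m.e * s := fun m => by simp [hΦ, e1, f1, s1, zm, Rat.smul_def]
  have c2 : ∀ m, (Φ m).f = m.f * s := fun m => by simp [hΦ, e2, f2, s2, zm, Rat.smul_def]
  have c3 : ∀ m, (Φ m).c = m.e * E.c + m.f * F.c + m.c * s ^ 2 := fun m => by
    simp [hΦ, e1, e2, f1, f2, s1, s2, s3, zm, pow_two, Rat.smul_def]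
  have c4 : ∀ m, (Φ m).w = j m.w * a := fun m => by simp [hΦ, e3, f3, s4, zm]
  refine ⟨Φ, fun x y => ?_, ?_, hΦ⟩
  · have hz : zm a (bQ ρ x.w y.w - bQ ρ y.w x.w) =
        zm a (bQ ρ x.w y.w) - zm a (bQ ρ y.w x.w) := by ext <;> simp [zm] <;> ring
    have hj : ∀ (q : ℚ) (x : K × K), j (q • x) = (q : ℝ) • j x := fun q x => by
      rw [map_rat_smul, Rat.cast_smul_eq_qsmul]
    refine G.ext ?_ ?_ ?_ ?_ ?_ ?_ ?_
    · simp [c1]
    · simp [c2]
    · simp [c1, c2, c3]; ring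
    · rw [G.lie_d, c1, c1, c3, c3, hΦ]
      simp [e1, e2, f1, f2, s1, s3, zm, Rat.smul_def]; ring
    · simp [c4]
    · rw [G.lie_v, c1, c1, c2, c2, c4, c4, hΦ]
      simp only [G.add_v, G.smul_v, G.add_w, G.sub_w, G.lie_v, G.lie_e, G.lie_f, G.lie_w, e1, e2, e3, f1, f2, f3, s1,
        s2, s4, zm, map_zero, smul_zero, zero_smul, G.zero_v, map_add, map_sub, hj,
        LinearMap.mulLeft_apply, map_mul, add_mul, sub_mul, smul_mul_assoc, mul_assoc]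
      module
    · rw [G.lie_z, c4, c4, h.br, h.br, hΦ]
      simp [e3, f3, hz]
  · set U := Submodule.span ℝ (Set.range Φ)
    have m : ∀ x, Φ x ∈ U := fun x => Submodule.subset_span ⟨x, rfl⟩
    have n2 : (starRingEnd ℂ) a.1.2 ≠ 0 := by simpa using h.n2
    have := h.n1; have := h.n2; have := h.n3; have := h.n4
    let i : A := ((a.1.1⁻¹, a.1.2⁻¹), (a.2.1⁻¹, a.2.2⁻¹))
    have hi : ∀ w, w * i * a = w := fun w => by ext <;> simp [i] <;> field_simp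
    have z : ∀ z, (⟨0, 0, 0, 0, 0, 0, z⟩ : L) ∈ U := fun z => by
      have := span2 U ⟨⟨fun z => (⟨0, 0, 0, 0, 0, 0, (z.1 * (a.1.1 * a.2.1),
        z.2 * ((starRingEnd ℂ) a.1.2 * a.2.2))⟩ : L), fun _ _ => by ext <;> simp <;> ring⟩,
        fun _ _ => by ext <;> simp <;> ring⟩ _ (Or.inl rfl)
        (fun k => by simpa [hΦ, zm] using m ⟨0, 0, 0, 0, 0, 0, k⟩)
        (z.1 / (a.1.1 * a.2.1), z.2 / ((starRingEnd ℂ) a.1.2 * a.2.2))
      convert this using 1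
      ext <;> simp <;> field_simp
    have v : ∀ v, (⟨0, 0, 0, 0, 0, v, 0⟩ : L) ∈ U := fun v => by
      have := span4 U ⟨⟨fun w => (⟨0, 0, 0, 0, 0, s • (w * a), 0⟩ : L),
        fun _ _ => by refine G.ext ?_ ?_ ?_ ?_ ?_ ?_ ?_ <;> simp [add_mul]⟩,
        fun _ _ => by refine G.ext ?_ ?_ ?_ ?_ ?_ ?_ ?_ <;> simp [smul_comm s]⟩
        (fun k => by
          convert m ⟨0, 0, 0, 0, 0, k, 0⟩ using 1
          refine G.ext ?_ ?_ ?_ ?_ ?_ ?_ ?_ <;> 
            simp [hΦ, zm, f1, f2, f3, s1, s2, s3, s4, Prod.mk_zero_zero])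
        (s⁻¹ • (v * i))
      convert this using 1
      refine G.ext ?_ ?_ ?_ ?_ ?_ ?_ ?_ <;> simp [hi, smul_smul, hs]
    have d : ∀ d, (⟨0, 0, 0, d, 0, 0, 0⟩ : L) ∈ U := fun d => by
      convert U.smul_mem (d / s ^ 3) (m ⟨0, 0, 0, 1, 0, 0, 0⟩) using 1
      refine G.ext ?_ ?_ ?_ ?_ ?_ ?_ ?_ <;> simp [hΦ, zm, e1, e2, e3, f1, f2, Prod.mk_zero_zero]
      field_simp
    have cn : ∀ x y : L, y ∈ U → x.e = y.e → x.f = y.f → x.c = y.c → x.w = y.w → x ∈ U := by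
      intro x y hy h1 h2 h3 h4
      convert add_mem (add_mem (add_mem hy (d (x.d - y.d))) (v (x.v - y.v))) (z (x.z - y.z)) using 1
      refine G.ext ?_ ?_ ?_ ?_ ?_ ?_ ?_ <;> simp [*]
    have w : ∀ w, (⟨0, 0, 0, 0, w, 0, 0⟩ : L) ∈ U := fun w => by
      have := span4 U ⟨⟨fun w => (⟨0, 0, 0, 0, w * a, 0, 0⟩ : L),
        fun _ _ => by refine G.ext ?_ ?_ ?_ ?_ ?_ ?_ ?_ <;> simp [add_mul]⟩,
        fun _ _ => by refine G.ext ?_ ?_ ?_ ?_ ?_ ?_ ?_ <;> simp⟩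
        (fun k => cn _ _ (m ⟨0, 0, 0, 0, k, 0, 0⟩) (by simp [c1]) (by simp [c2]) (by simp [c3])
          (by simp [c4])) (w * i)
      simpa [hi] using this
    refine eq_top_iff.2 fun x _ => ?_
    refine cn x _ (add_mem (add_mem (add_mem (U.smul_mem (x.e / s) (m ⟨1, 0, 0, 0, 0, 0, 0⟩))
      (U.smul_mem (x.f / s) (m ⟨0, 1, 0, 0, 0, 0, 0⟩))) (U.smul_mem
        ((x.c - x.e / s * E.c - x.f / s * F.c) / s ^ 2) (m ⟨0, 0, 1, 0, 0, 0, 0⟩))) (w x.w))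
      ?_ ?_ ?_ ?_ <;> simp [c1, c2, c3, c4, hs]

end Pool.Agent.H.MP_b83182_al
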