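import Pool.Agent.H.MP_b83182_al.Cl
import Pool.Agent.H.MP_b83182_al.A

set_option maxHeartbeats 400000

namespace Pool.Agent.H.MP_b83182_al

open K

/-- the underlying space of the Lie algebras -/
@[ext] structure G {R W Z : Type} [CommRing R] [AddCommGroup W] [Module R W] [AddCommGroup Z]
    [Module R Z] (ψ : W →ₗ[R] W) (β : W →ₗ[R] W →ₗ[R] Z) where
  e : R
  f : R
  c : R
  d : R
  w : W
  v : W
  z : Z

namespace G

variable {R W Z : Type} [CommRing R] [AddCommGroup W] [Module R W] [AddCommGroup Z]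
    [Module R Z] {ψ : W →ₗ[R] W} {β : W →ₗ[R] W →ₗ[R] Z}

/-- coordinates -/
def eqv : G ψ β ≃ R × R × R × R × W × W × Z where
  toFun x := (x.e, x.f, x.c, x.d, x.w, x.v, x.z)
  invFun x := ⟨x.1, x.2.1, x.2.2.1, x.2.2.2.1, x.2.2.2.2.1, x.2.2.2.2.2.1, x.2.2.2.2.2.2⟩
  left_inv _ := rfl
  right_inv _ := rfl

instance : AddCommGroup (G ψ β) := eqv.addCommGroup

instance {S : Type} [Semiring S] [Module S R] [Module S W] [Module S Z] : Module S (G ψ β) :=
  eqv.module S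

instance : Bracket (G ψ β) (G ψ β) := ⟨fun x y => ⟨0, 0, x.e * y.f - x.f * y.e,
  x.e * y.c - x.c * y.e, 0, x.e • ψ y.w - y.e • ψ x.w + x.f • y.w - y.f • x.w,
  β x.w y.w - β y.w x.w⟩⟩

variable (x y : G ψ β) {S : Type} [Semiring S] [Module S R] [Module S W] [Module S Z] (s : S)

@[simp] theorem zero_e : (0 : G ψ β).e = 0 := rfl
@[simp] theorem zero_f : (0 : G ψ β).f = 0 := rfl
@[simp] theorem zero_c : (0 : G ψ β).c = 0 := rfl
@[simp] theorem zero_d : (0 : G ψ β).d = 0 := rfl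
@[simp] theorem zero_w : (0 : G ψ β).w = 0 := rfl
@[simp] theorem zero_v : (0 : G ψ β).v = 0 := rfl
@[simp] theorem zero_z : (0 : G ψ β).z = 0 := rfl
@[simp] theorem add_e : (x + y).e = x.e + y.e := rfl
@[simp] theorem add_f : (x + y).f = x.f + y.f := rfl
@[simp] theorem add_c : (x + y).c = x.c + y.c := rfl
@[simp] theorem add_d : (x + y).d = x.d + y.d := rfl
@[simp] theorem add_w : (x + y).w = x.w + y.w := rfl
@[simp] theorem add_v : (x + y).v = x.v + y.v := rfl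
@[simp] theorem add_z : (x + y).z = x.z + y.z := rfl
@[simp] theorem sub_e : (x - y).e = x.e - y.e := rfl
@[simp] theorem sub_f : (x - y).f = x.f - y.f := rfl
@[simp] theorem sub_c : (x - y).c = x.c - y.c := rfl
@[simp] theorem sub_d : (x - y).d = x.d - y.d := rfl
@[simp] theorem sub_w : (x - y).w = x.w - y.w := rfl
@[simp] theorem sub_v : (x - y).v = x.v - y.v := rfl
@[simp] theorem sub_z : (x - y).z = x.z - y.z := rfl
@[simp] theorem smul_e : (s • x).e = s • x.e := rfl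
@[simp] theorem smul_f : (s • x).f = s • x.f := rfl
@[simp] theorem smul_c : (s • x).c = s • x.c := rfl
@[simp] theorem smul_d : (s • x).d = s • x.d := rfl
@[simp] theorem smul_w : (s • x).w = s • x.w := rfl
@[simp] theorem smul_v : (s • x).v = s • x.v := rfl
@[simp] theorem smul_z : (s • x).z = s • x.z := rfl
@[simp] theorem lie_e : ⁅x, y⁆.e = 0 := rfl
@[simp] theorem lie_f : ⁅x, y⁆.f = 0 := rfl
@[simp] theorem lie_c : ⁅x, y⁆.c = x.e * y.f - x.f * y.e := rfl
@[simp] theorem lie_d : ⁅x, y⁆.d = x.e * y.c - x.c * y.e := rfl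
@[simp] theorem lie_w : ⁅x, y⁆.w = 0 := rfl
@[simp] theorem lie_v : ⁅x, y⁆.v = x.e • ψ y.w - y.e • ψ x.w + x.f • y.w - y.f • x.w := rfl
@[simp] theorem lie_z : ⁅x, y⁆.z = β x.w y.w - β y.w x.w := rfl

instance : LieRing (G ψ β) where
  add_lie x y z := by ext <;> simp [add_smul] <;> first | abel1 | ring
  lie_add x y z := by ext <;> simp [add_smul] <;> first | abel1 | ring
  lie_self x := by ext <;> simp [mul_comm]
  leibniz_lie x y z := by ext <;> simp; ring

instance : LieAlgebra R (G ψ β) where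
  lie_smul t x y := by ext <;> simp <;> first | ring1 | module

instance {T : Type} [Semiring T] [Module T R] [Module T W] [Module T Z] [SMul S T]
    [IsScalarTower S T R] [IsScalarTower S T W] [IsScalarTower S T Z] :
    IsScalarTower S T (G ψ β) := ⟨fun a b x => by ext <;> simp⟩

/-- coordinates, linear -/
def leq : G ψ β ≃ₗ[R] R × R × R × R × W × W × Z :=
  { eqv with map_add' := fun _ _ => rfl, map_smul' := fun _ _ => rfl }

instance [Module.Finite R W] [Module.Finite R Z] : Module.Finite R (G ψ β) :=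
  Module.Finite.equiv leq.symm

end G

/-- real weight space -/
abbrev A := (ℂ × ℂ) × (ℂ × ℂ)

/-- the embedding -/
noncomputable def j : K × K →+* A :=
  ((phi.prod (phi.comp (bar.comp tau))).comp (RingHom.fst _ _)).prod
    ((phi.prod (phi.comp tau)).comp (RingHom.snd _ _))

theorem j_ap (x : K × K) :
    j x = ((phi x.1, phi (bar (tau x.1))), (phi x.2, phi (tau x.2))) := rfl

/-- the operator -/
def ps : K × K := (⟨-2, 1, 0, -1⟩, ⟨2, 1, 1, 0⟩)

/-- real product -/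
noncomputable def bR : A →ₗ[ℝ] A →ₗ[ℝ] ℂ × ℂ :=
  LinearMap.mk₂ ℝ (fun x y => (x.1.1 * y.2.1 + (starRingEnd ℂ) x.1.1 * y.2.2,
    x.1.2 * y.2.1 + (starRingEnd ℂ) x.1.2 * y.2.2))
    (fun _ _ _ => by ext <;> simp <;> ring) (fun _ _ _ => by ext <;> simp <;> ring)
    (fun _ _ _ => by ext <;> simp <;> ring) (fun _ _ _ => by ext <;> simp <;> ring)

theorem bR_ap (x y : A) : bR x y = (x.1.1 * y.2.1 + (starRingEnd ℂ) x.1.1 * y.2.2,
    x.1.2 * y.2.1 + (starRingEnd ℂ) x.1.2 * y.2.2) := rfl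

/-- rational product -/
noncomputable def bQ (ρ : K) : K × K →ₗ[ℚ] K × K →ₗ[ℚ] K :=
  LinearMap.mk₂ ℚ (fun x y => x.1 * y.2 + ρ * bar x.1 * tau y.2)
    (fun _ _ _ => by simp; ring) (fun _ _ _ => by simp [Rat.smul_def]; ring)
    (fun _ _ _ => by simp; ring) (fun _ _ _ => by simp [Rat.smul_def]; ring)

theorem bQ_ap (ρ : K) (x y : K × K) : bQ ρ x y = x.1 * y.2 + ρ * bar x.1 * tau y.2 := rfl

/-- the real Lie algebra -/
abbrev L := G (LinearMap.mulLeft ℝ (j ps)) bR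

/-- the rational forms -/
abbrev M (ρ : K) := G (LinearMap.mulLeft ℚ ps) (bQ ρ)

theorem frL : Module.finrank ℝ L = 24 := by
  rw [G.leq.finrank_eq]; simp

theorem frM (ρ : K) : Module.finrank ℚ (M ρ) = 24 := by
  rw [G.leq.finrank_eq]; simp [K.finrank_eq]

theorem span2 {X : Type} [AddCommGroup X] [Module ℝ X] (U : Submodule ℝ X) (T : ℂ × ℂ →ₗ[ℝ] X)
    (g : K → K) (hg : g = tau ∨ g = fun k => bar (tau k)) (h : ∀ k, T (phi k, phi (g k)) ∈ U)
    (z : ℂ × ℂ) : T z ∈ U := by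
  have h3 : (Real.sqrt 3 : ℝ) ≠ 0 := by positivity
  have : ∃ a b c d : ℝ, z = a • (phi 1, phi (g 1)) + b • (phi ⟨0, 1, 0, 0⟩, phi (g ⟨0, 1, 0, 0⟩)) +
      c • (phi ⟨0, 0, 1, 0⟩, phi (g ⟨0, 0, 1, 0⟩)) +
      d • (phi ⟨0, 0, 0, 1⟩, phi (g ⟨0, 0, 0, 1⟩)) := by
    rcases hg with rfl | rfl
    · refine ⟨(z.1.re + z.2.re) / 2, (z.1.im - z.2.im) / 2, (z.1.im + z.2.im) / 2 / √3,
        (z.2.re - z.1.re) / 2 / √3, ?_⟩
      ext <;> apply Complex.ext <;> simp [phi_ap, tau_ap, th] <;> field_simp <;> ring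
    · refine ⟨(z.1.re + z.2.re) / 2, (z.1.im + z.2.im) / 2, (z.1.im - z.2.im) / 2 / √3,
        (z.2.re - z.1.re) / 2 / √3, ?_⟩
      ext <;> apply Complex.ext <;> simp [phi_ap, tau_ap, bar_ap, th] <;> field_simp <;> ring
  obtain ⟨a, b, c, d, rfl⟩ := this
  simp only [map_add, map_smul]
  exact add_mem (add_mem (add_mem (U.smul_mem _ (h _)) (U.smul_mem _ (h _))) (U.smul_mem _ (h _)))
    (U.smul_mem _ (h _))

theorem span4 {X : Type} [AddCommGroup X] [Module ℝ X] (U : Submodule ℝ X) (T : A →ₗ[ℝ] X)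
    (h : ∀ k, T (j k) ∈ U) (z : A) : T z ∈ U := by
  have h1 := span2 U (T ∘ₗ LinearMap.inl ℝ _ _) _ (Or.inr rfl)
    (fun k => by simpa [j_ap, Prod.mk_zero_zero] using h (k, 0)) z.1
  have h2 := span2 U (T ∘ₗ LinearMap.inr ℝ _ _) _ (Or.inl rfl)
    (fun k => by simpa [j_ap, Prod.mk_zero_zero] using h (0, k)) z.2
  simpa [← map_add] using add_mem h1 h2

end Pool.Agent.H.MP_b83182_al
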