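import Mathlib

set_option maxHeartbeats 400000

namespace Pool.Agent.H.MP_b83182_al

/-- the field `Q(i, sqrt(-3))` in coordinates -/
@[ext] structure K where
  a : ℚ
  b : ℚ
  c : ℚ
  d : ℚ

namespace K

instance : Zero K := ⟨⟨0, 0, 0, 0⟩⟩
instance : One K := ⟨⟨1, 0, 0, 0⟩⟩
instance : Add K := ⟨fun x y => ⟨x.a + y.a, x.b + y.b, x.c + y.c, x.d + y.d⟩⟩
instance : Neg K := ⟨fun x => ⟨-x.a, -x.b, -x.c, -x.d⟩⟩
instance : Mul K := ⟨fun x y => ⟨x.a * y.a - x.b * y.b - 3 * x.c * y.c + 3 * x.d * y.d,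
  x.a * y.b + x.b * y.a - 3 * x.c * y.d - 3 * x.d * y.c,
  x.a * y.c + x.c * y.a - x.b * y.d - x.d * y.b, x.a * y.d + x.d * y.a + x.b * y.c + x.c * y.b⟩⟩

@[simp] theorem zero_a : (0 : K).a = 0 := rfl
@[simp] theorem zero_b : (0 : K).b = 0 := rfl
@[simp] theorem zero_c : (0 : K).c = 0 := rfl
@[simp] theorem zero_d : (0 : K).d = 0 := rfl
@[simp] theorem one_a : (1 : K).a = 1 := rfl
@[simp] theorem one_b : (1 : K).b = 0 := rfl
@[simp] theorem one_c : (1 : K).c = 0 := rfl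
@[simp] theorem one_d : (1 : K).d = 0 := rfl
@[simp] theorem add_a (x y : K) : (x + y).a = x.a + y.a := rfl
@[simp] theorem add_b (x y : K) : (x + y).b = x.b + y.b := rfl
@[simp] theorem add_c (x y : K) : (x + y).c = x.c + y.c := rfl
@[simp] theorem add_d (x y : K) : (x + y).d = x.d + y.d := rfl
@[simp] theorem neg_a (x : K) : (-x).a = -x.a := rfl
@[simp] theorem neg_b (x : K) : (-x).b = -x.b := rfl
@[simp] theorem neg_c (x : K) : (-x).c = -x.c := rfl
@[simp] theorem neg_d (x : K) : (-x).d = -x.d := rfl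
@[simp] theorem mul_a (x y : K) :
    (x * y).a = x.a * y.a - x.b * y.b - 3 * x.c * y.c + 3 * x.d * y.d := rfl
@[simp] theorem mul_b (x y : K) :
    (x * y).b = x.a * y.b + x.b * y.a - 3 * x.c * y.d - 3 * x.d * y.c := rfl
@[simp] theorem mul_c (x y : K) :
    (x * y).c = x.a * y.c + x.c * y.a - x.b * y.d - x.d * y.b := rfl
@[simp] theorem mul_d (x y : K) :
    (x * y).d = x.a * y.d + x.d * y.a + x.b * y.c + x.c * y.b := rfl

instance : CommRing K where
  add_assoc x y z := by ext <;> simp <;> ring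
  zero_add x := by ext <;> simp
  add_zero x := by ext <;> simp
  add_comm x y := by ext <;> simp <;> ring
  neg_add_cancel x := by ext <;> simp
  mul_assoc x y z := by ext <;> simp <;> ring
  one_mul x := by ext <;> simp
  mul_one x := by ext <;> simp
  zero_mul x := by ext <;> simp
  mul_zero x := by ext <;> simp
  left_distrib x y z := by ext <;> simp <;> ring
  right_distrib x y z := by ext <;> simp <;> ring
  mul_comm x y := by ext <;> simp <;> ring
  nsmul := nsmulRec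
  zsmul := zsmulRec

/-- complex conjugation -/
def bar : K →+* K where
  toFun x := ⟨x.a, -x.b, -x.c, x.d⟩
  map_one' := by ext <;> simp
  map_zero' := by ext <;> simp
  map_add' x y := by ext <;> simp <;> ring
  map_mul' x y := by ext <;> simp <;> ring

/-- the automorphism fixing the square root of `-3` -/
def tau : K →+* K where
  toFun x := ⟨x.a, -x.b, x.c, -x.d⟩
  map_one' := by ext <;> simp
  map_zero' := by ext <;> simp
  map_add' x y := by ext <;> simp <;> ring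
  map_mul' x y := by ext <;> simp <;> ring

/-- rationals -/
def rat : ℚ →+* K where
  toFun q := ⟨q, 0, 0, 0⟩
  map_one' := rfl
  map_zero' := rfl
  map_add' x y := by ext <;> simp
  map_mul' x y := by ext <;> simp

theorem bar_ap (x : K) : bar x = ⟨x.a, -x.b, -x.c, x.d⟩ := rfl
theorem tau_ap (x : K) : tau x = ⟨x.a, -x.b, x.c, -x.d⟩ := rfl
theorem rat_ap (q : ℚ) : rat q = ⟨q, 0, 0, 0⟩ := rfl
@[simp] theorem bar_bar (x : K) : bar (bar x) = x := by ext <;> simp [bar_ap]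
@[simp] theorem tau_tau (x : K) : tau (tau x) = x := by ext <;> simp [tau_ap]
@[simp] theorem tau_bar (x : K) : tau (bar x) = bar (tau x) := by ext <;> simp [tau_ap, bar_ap]

/-- the norm -/
def nm (x : K) : ℚ :=
  (x.a ^ 2 + x.b ^ 2 - 3 * x.c ^ 2 - 3 * x.d ^ 2) ^ 2 + 3 * (2 * (x.a * x.c + x.b * x.d)) ^ 2

theorem nm_eq (x : K) : rat (nm x) = x * tau x * bar (x * tau x) := by
  ext <;> simp [rat_ap, nm, tau_ap, bar_ap] <;> ring

theorem nm_mul (x y : K) : nm (x * y) = nm x * nm y := by simp [nm]; ring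

end K

theorem prim {ι : Type} [Fintype ι] (p : ℕ) (hp : 1 < p) (x : ι → ℚ) :
    ∃ (n : ℕ) (X : ι → ℤ), n ≠ 0 ∧ (∀ i, (X i : ℚ) = n * x i) ∧ ¬ (p ∣ n ∧ ∀ i, (p : ℤ) ∣ X i) := by
  classical
  have ex : ∃ n : ℕ, n ≠ 0 ∧ ∃ X : ι → ℤ, ∀ i, (X i : ℚ) = n * x i := by
    refine ⟨∏ i, (x i).den, Finset.prod_ne_zero_iff.2 fun i _ => (x i).den_nz,
      fun i => (∏ j ∈ Finset.univ.erase i, (x j).den : ℕ) * (x i).num, fun i => ?_⟩
    rw [← Finset.prod_erase_mul _ _ (Finset.mem_univ i)]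
    push_cast
    rw [mul_assoc, Rat.den_mul_eq_num]
  obtain ⟨h0, X, hX⟩ := Nat.find_spec ex
  refine ⟨_, X, h0, hX, ?_⟩
  rintro ⟨⟨m, hm⟩, h⟩
  choose Y hY using h
  have hm0 : m ≠ 0 := by rintro rfl; exact h0 (by simpa using hm)
  refine Nat.find_min ex (m := m) ?_ ⟨hm0, Y, fun i => ?_⟩
  · rw [hm]; nlinarith [Nat.pos_of_ne_zero hm0]
  · have := hX i
    rw [hY, hm] at this
    push_cast at this
    have hp0 : (p : ℚ) ≠ 0 := by positivity
    exact mul_left_cancel₀ hp0 (by rw [this]; ring)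

theorem aniso {a b c d : ℚ} (h : a ^ 2 + b ^ 2 = 3 * c ^ 2 + 3 * d ^ 2) :
    a = 0 ∧ b = 0 ∧ c = 0 ∧ d = 0 := by
  have key : ∀ x y : ℤ, (3 : ℤ) ∣ x ^ 2 + y ^ 2 → (3 : ℤ) ∣ x ∧ (3 : ℤ) ∣ y := by
    intro x y h
    have : ∀ u v : ZMod 3, u ^ 2 + v ^ 2 = 0 → u = 0 ∧ v = 0 := by decide
    have h2 := this x y (by exact_mod_cast (ZMod.intCast_zmod_eq_zero_iff_dvd _ 3).2 h)
    exact ⟨(ZMod.intCast_zmod_eq_zero_iff_dvd _ 3).1 h2.1,
      (ZMod.intCast_zmod_eq_zero_iff_dvd _ 3).1 h2.2⟩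
  have main : ∀ a b c d : ℚ, a ^ 2 + b ^ 2 = 3 * c ^ 2 + 3 * d ^ 2 → c = 1 → False := by
    intro a b c d h hc
    obtain ⟨n, X, hn, hX, h3⟩ := prim 3 (by norm_num) ![a, b, c, d]
    have e : X 0 ^ 2 + X 1 ^ 2 = 3 * (X 2 ^ 2 + X 3 ^ 2) := by
      have : (X 0 : ℚ) ^ 2 + X 1 ^ 2 = 3 * (X 2 ^ 2 + X 3 ^ 2) := by
        simp only [hX]; simp; linear_combination (n : ℚ) ^ 2 * h
      exact_mod_cast this
    obtain ⟨⟨u, hu⟩, ⟨v, hv⟩⟩ := key _ _ ⟨_, e⟩
    have k2 := key (X 2) (X 3) ⟨u ^ 2 + v ^ 2, by rw [hu, hv] at e; linarith⟩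
    refine h3 ⟨?_, fun i => ?_⟩
    · have : X 2 = n := by
        have := hX 2
        simp [hc] at this
        exact_mod_cast this
      exact_mod_cast this ▸ k2.1
    · fin_cases i
      exacts [⟨u, hu⟩, ⟨v, hv⟩, k2.1, k2.2]
  have hc : c = 0 := by
    by_contra hc
    exact main (a / c) (b / c) 1 (d / c) (by field_simp; linarith) rfl
  have hd : d = 0 := by
    by_contra hd
    exact main (a / d) (b / d) 1 (c / d) (by field_simp; linarith) rfl
  subst hc hd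
  exact ⟨by nlinarith, by nlinarith, rfl, rfl⟩

namespace K

theorem nm_ne {x : K} (hx : x ≠ 0) : nm x ≠ 0 := fun h => by
  have : x.a ^ 2 + x.b ^ 2 - 3 * x.c ^ 2 - 3 * x.d ^ 2 = 0 := by
    unfold nm at h
    nlinarith [sq_nonneg (x.a ^ 2 + x.b ^ 2 - 3 * x.c ^ 2 - 3 * x.d ^ 2),
      sq_nonneg (2 * (x.a * x.c + x.b * x.d))]
  obtain ⟨h1, h2, h3, h4⟩ := aniso (a := x.a) (b := x.b) (c := x.c) (d := x.d) (by linarith)
  exact hx (K.ext h1 h2 h3 h4)

theorem isField : IsField K where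
  exists_pair_ne := ⟨0, 1, fun h => by simpa using congrArg K.a h⟩
  mul_comm := mul_comm
  mul_inv_cancel {x} hx := ⟨tau x * bar (x * tau x) * rat (nm x)⁻¹, by
    rw [← mul_assoc, ← mul_assoc, ← nm_eq, ← map_mul, mul_inv_cancel₀ (nm_ne hx), map_one]⟩

noncomputable instance : Field K := isField.toField

/-- a square root of `-3` -/
noncomputable def th : ℂ := (Real.sqrt 3 : ℝ) * Complex.I

theorem th_sq : th ^ 2 = -3 := by
  rw [th, mul_pow, ← Complex.ofReal_pow, Real.sq_sqrt (by norm_num)]; simp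

/-- the complex embedding -/
noncomputable def phi : K →+* ℂ where
  toFun x := x.a + x.b * Complex.I + x.c * th + x.d * (Complex.I * th)
  map_one' := by simp
  map_zero' := by simp
  map_add' x y := by simp; ring
  map_mul' x y := by
    simp
    linear_combination (-(x.b * y.b) - (x.b * y.d + x.d * y.b) * th - x.d * y.d * th ^ 2 : ℂ) *
      Complex.I_sq - (x.c * y.c + (x.c * y.d + x.d * y.c) * Complex.I - x.d * y.d : ℂ) * th_sq

theorem phi_ap (x : K) : phi x = x.a + x.b * Complex.I + x.c * th + x.d * (Complex.I * th) := rfl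

theorem conj_phi (x : K) : (starRingEnd ℂ) (phi x) = phi (bar x) := by
  simp [phi_ap, bar_ap, th]

instance : CharZero K := phi.charZero

theorem cast_eq (q : ℚ) : (q : K) = ⟨q, 0, 0, 0⟩ := (eq_ratCast rat q).symm

theorem smul_eq (q : ℚ) (x : K) : q • x = ⟨q * x.a, q * x.b, q * x.c, q * x.d⟩ := by
  rw [Rat.smul_def, cast_eq]; ext <;> simp

theorem finrank_eq : Module.finrank ℚ K = 4 := by
  let e : K ≃ₗ[ℚ] ℚ × ℚ × ℚ × ℚ :=
    { toFun x := (x.a, x.b, x.c, x.d)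
      invFun x := ⟨x.1, x.2.1, x.2.2.1, x.2.2.2⟩
      map_add' _ _ := rfl
      map_smul' q x := by simp [smul_eq]
      left_inv _ := rfl
      right_inv _ := rfl }
  rw [e.finrank_eq]; simp

instance : Module.Finite ℚ K := Module.finite_of_finrank_pos (by rw [finrank_eq]; norm_num)

end K

end Pool.Agent.H.MP_b83182_al
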