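import Pool.Agent.H.MP_b83182_al.Desc

set_option maxHeartbeats 400000

namespace Pool.Agent.H.MP_b83182_al

open K TensorProduct

/-- the twisted parameter -/
def r1 : K := ⟨-1 / 2, -1 / 2, 1 / 2, -1 / 2⟩

theorem nm_r1 : nm r1 = 1 := by norm_num [nm, r1]

theorem key_r1 {k l : K} (h : k * l + r1 * bar k * tau l = 0) (hl : l ≠ 0) : k = 0 := by
  have h2 := congrArg tau h
  simp only [map_add, map_mul, tau_tau, map_zero, tau_bar] at h2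
  have h3 : r1 * tau r1 = -1 := by ext <;> norm_num [r1, tau_ap]
  have l2 : tau l ≠ 0 := by simpa using hl
  have h4 : k * tau k + bar k * bar (tau k) = 0 := mul_left_cancel₀ (mul_ne_zero hl l2) (by
    linear_combination tau k * tau l * h - r1 * bar k * tau l * h2 +
      bar k * bar (tau k) * l * tau l * h3)
  have h5 := congrArg K.a h4
  simp [tau_ap, bar_ap] at h5
  obtain ⟨a, b, c, d⟩ := aniso (a := k.a) (b := k.b) (c := k.c) (d := k.d) (by linarith)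
  exact K.ext a b c d

theorem z2 {ρ : K} (x : M ρ) : (∀ a b : M ρ, ⁅⁅x, a⁆, b⁆ = 0) ↔ x.e = 0 ∧ x.f = 0 := by
  refine ⟨fun h => ⟨?_, ?_⟩, fun h a b => ?_⟩
  · simpa using congrArg G.d (h ⟨0, 1, 0, 0, 0, 0, 0⟩ ⟨1, 0, 0, 0, 0, 0, 0⟩)
  · have := congrArg G.d (h ⟨1, 0, 0, 0, 0, 0, 0⟩ ⟨1, 0, 0, 0, 0, 0, 0⟩)
    rw [G.lie_d] at this
    simpa using this
  · refine G.ext ?_ ?_ ?_ ?_ ?_ ?_ ?_ <;> simp [h]

theorem z2' {ρ ρ' : K} (f : M ρ ≃ₗ⁅ℚ⁆ M ρ') (x : M ρ) (h : x.e = 0 ∧ x.f = 0) :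
    (f x).e = 0 ∧ (f x).f = 0 := by
  rw [← z2] at h ⊢
  intro a b
  obtain ⟨a, rfl⟩ := f.surjective a
  obtain ⟨b, rfl⟩ := f.surjective b
  simp [← f.map_lie, h]

theorem noniso : ¬ Nonempty (M 1 ≃ₗ⁅ℚ⁆ M r1) := by
  rintro ⟨f⟩
  let w : M 1 := ⟨0, 0, 0, 0, (⟨0, 1, 0, 0⟩, 0), 0, 0⟩
  have hw := z2' f w ⟨rfl, rfl⟩
  have key : ∀ ι : K →ₗ[ℚ] K × K, ∃ l, l ≠ 0 ∧ bQ r1 (f w).w (ι l) - bQ r1 (ι l) (f w).w = 0 := by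
    intro ι
    let T : K →ₗ[ℚ] ℚ × ℚ :=
      { toFun l := ((f.symm ⟨0, 0, 0, 0, ι l, 0, 0⟩).w.2.b, (f.symm ⟨0, 0, 0, 0, ι l, 0, 0⟩).w.2.d)
        map_add' x y := by
          have : (⟨0, 0, 0, 0, ι (x + y), 0, 0⟩ : M r1) =
              ⟨0, 0, 0, 0, ι x, 0, 0⟩ + ⟨0, 0, 0, 0, ι y, 0, 0⟩ := by
            refine G.ext ?_ ?_ ?_ ?_ ?_ ?_ ?_ <;> simp
          rw [this, map_add]; rfl
        map_smul' q x := by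
          have : (⟨0, 0, 0, 0, ι (q • x), 0, 0⟩ : M r1) = q • ⟨0, 0, 0, 0, ι x, 0, 0⟩ := by
            refine G.ext ?_ ?_ ?_ ?_ ?_ ?_ ?_ <;> simp
          rw [this, map_smul]; simp [smul_eq] }
    obtain ⟨l, hl, h0⟩ := (Submodule.ne_bot_iff _).1
      (T.ker_ne_bot_of_finrank_lt (by simp [K.finrank_eq]))
    refine ⟨l, h0, ?_⟩
    obtain ⟨h1, h2⟩ := Prod.mk_eq_zero.1 hl
    have h3 := z2' f.symm ⟨0, 0, 0, 0, ι l, 0, 0⟩ ⟨rfl, rfl⟩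
    have : ⁅w, f.symm ⟨0, 0, 0, 0, ι l, 0, 0⟩⁆ = 0 := by
      refine G.ext ?_ ?_ ?_ ?_ ?_ ?_ ?_ <;> simp [w, h3, bQ_ap]
      ext <;> simp [tau_ap, bar_ap, h1, h2]
    have := congrArg (fun x => (f x).z) this
    simpa [f.map_lie] using this
  obtain ⟨l, hl, h1⟩ := key (LinearMap.inr ℚ K K)
  obtain ⟨k, hk, h2⟩ := key (LinearMap.inl ℚ K K)
  simp [bQ_ap] at h1 h2
  have a1 : (f w).w.1 = 0 := key_r1 h1 hl
  have a2 : (f w).w.2 = 0 := by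
    by_contra h
    exact hk (key_r1 (by linear_combination -h2) h)
  let u : M 1 := ⟨0, 0, 0, 0, (0, ⟨0, 1, 0, 0⟩), 0, 0⟩
  have hu := z2' f u ⟨rfl, rfl⟩
  have : f ⁅w, u⁆ = 0 := by
    rw [f.map_lie]
    refine G.ext ?_ ?_ ?_ ?_ ?_ ?_ ?_ <;> simp [hw, hu, bQ_ap, a1, a2]
  have := congrArg (fun x : M 1 => x.z.a) (f.injective (this.trans (map_zero f).symm))
  simp [w, u, bQ_ap, sub_eq_add_neg, bar_ap, tau_ap] at this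

theorem nilp : LieModule.lowerCentralSeries ℝ L L 3 = ⊥ := by
  have h : ∀ (n : ℕ) (U V : Submodule ℝ L), (∀ x ∈ LieModule.lowerCentralSeries ℝ L L n, x ∈ U) →
      (∀ x : L, ∀ y ∈ U, ⁅x, y⁆ ∈ V) → ∀ x ∈ LieModule.lowerCentralSeries ℝ L L (n + 1), x ∈ V := by
    intro n U V h1 h2 x hx
    rw [LieModule.lowerCentralSeries_succ, ← LieSubmodule.mem_toSubmodule,
      LieSubmodule.lieIdeal_oper_eq_linear_span'] at hx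
    exact (Submodule.span_le.2 (by rintro _ ⟨a, -, b, hb, rfl⟩; exact h2 _ _ (h1 b hb))) hx
  have h1 := h 0 ⊤ (sub true true false false true false) (by simp) (by simp [mem_sub])
  have h2 := h 1 _ (sub true true true false true false) h1 (by simp +contextual [mem_sub])
  have h3 := h 2 _ ⊥ h2 fun x y hy => by
    simp only [mem_sub, forall_const] at hy
    refine G.ext ?_ ?_ ?_ ?_ ?_ ?_ ?_ <;> simp [hy]
  exact (LieSubmodule.eq_bot_iff _).2 h3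

theorem classif : ∃ R : Set K, R.Finite ∧ 1 ∈ R ∧ r1 ∈ R ∧ (∀ ρ ∈ R, nm ρ = 1) ∧
    ∀ (N : Type) (_ : LieRing N) (_ : LieAlgebra ℚ N),
      Nonempty (L ≃ₗ⁅ℝ⁆ ℝ ⊗[ℚ] N) → ∃ ρ ∈ R, Nonempty (N ≃ₗ⁅ℚ⁆ M ρ) := by
  obtain ⟨R, h1, h2, h3⟩ := reps
  refine ⟨insert 1 (insert r1 R), (h1.insert _).insert _, by simp, by simp, ?_, ?_⟩
  · rintro ρ (rfl | rfl | h)
    exacts [by simp [nm], nm_r1, h2 _ h]
  · rintro N _ _ ⟨Φ⟩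
    obtain ⟨S⟩ := exists_QS Φ
    have hN : Module.finrank ℚ N = 24 := by
      rw [← frL, Φ.toLinearEquiv.finrank_eq, Module.finrank_baseChange]
    haveI : Module.Finite ℚ N := Module.finite_of_finrank_pos (by omega)
    obtain ⟨a, ha, ρ, hρ, ok⟩ := ex_ok S
    obtain ⟨ρ', hρ', k, l, hk, hl, rfl⟩ := h3 ρ hρ
    exact ⟨_, by simp [hρ'], iso_of S hN (LW_j S _ a ha) (ok.move hk hl)⟩

theorem main : ∃ k : ℕ, 1 < k ∧ ∃ r : Fin k → K, (∀ i, nm (r i) = 1) ∧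
    (∀ i j, Nonempty (M (r i) ≃ₗ⁅ℚ⁆ M (r j)) → i = j) ∧
    ∀ (N : Type) (_ : LieRing N) (_ : LieAlgebra ℚ N),
      Nonempty (L ≃ₗ⁅ℝ⁆ ℝ ⊗[ℚ] N) → ∃ i, Nonempty (N ≃ₗ⁅ℚ⁆ M (r i)) := by
  classical
  obtain ⟨R, h1, h2, h3, h4, h5⟩ := classif
  let s : Setoid R := ⟨fun a b => Nonempty (M a ≃ₗ⁅ℚ⁆ M b), fun _ => ⟨LieEquiv.refl⟩,
    fun ⟨f⟩ => ⟨f.symm⟩, fun ⟨f⟩ ⟨g⟩ => ⟨f.trans g⟩⟩
  haveI := h1.to_subtype
  haveI : Nontrivial (Quotient s) :=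
    ⟨⟨⟦⟨1, h2⟩⟧, ⟦⟨r1, h3⟩⟧, fun h => noniso (Quotient.exact h)⟩⟩
  let e := Finite.equivFin (Quotient s)
  refine ⟨_, Finite.one_lt_card, fun i => (e.symm i).out, fun i => h4 _ (e.symm i).out.2,
    fun i j h => e.symm.injective (Quotient.out_equiv_out.1 h), fun N _ _ h => ?_⟩
  obtain ⟨ρ, hρ, ⟨f⟩⟩ := h5 N _ _ h
  obtain ⟨g⟩ : s (⟦⟨ρ, hρ⟩⟧ : Quotient s).out ⟨ρ, hρ⟩ := Quotient.mk_out _
  exact ⟨e ⟦⟨ρ, hρ⟩⟧, by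
    show Nonempty (N ≃ₗ⁅ℚ⁆ M (e.symm (e ⟦⟨ρ, hρ⟩⟧)).out)
    rw [e.symm_apply_apply]; exact ⟨f.trans g.symm⟩⟩

end Pool.Agent.H.MP_b83182_al
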