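import Pool.Agent.H.MP_b83182_al.K

set_option maxHeartbeats 400000

namespace Pool.Agent.H.MP_b83182_al

open K

theorem desc {ι : Type} [Fintype ι] {p a : ℕ} (hp : p.Prime) (h1 : p ∣ a) (h2 : Squarefree a)
    (x : ι → ℚ) (w : ι → ℤ) (h : ∑ i, w i * x i ^ 2 = a) :
    ∃ (n : ℕ) (X : ι → ℤ), (∀ i, (X i : ℚ) = n * x i) ∧ (∃ i, (X i : ZMod p) ≠ 0) ∧
      ∑ i, (w i : ZMod p) * (X i) ^ 2 = 0 := by
  obtain ⟨n, X, hn, hX, h3⟩ := prim p hp.one_lt x
  have e : ∑ i, w i * X i ^ 2 = a * n ^ 2 := by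
    have : ∑ i, (w i : ℚ) * (X i : ℚ) ^ 2 = a * n ^ 2 := by
      rw [← h, Finset.sum_mul]
      exact Finset.sum_congr rfl fun i _ => by rw [hX]; ring
    exact_mod_cast this
  refine ⟨n, X, hX, ?_, ?_⟩
  · by_contra hc
    simp only [not_exists, not_not, ZMod.intCast_zmod_eq_zero_iff_dvd] at hc
    refine h3 ⟨?_, hc⟩
    have d : (p : ℤ) ^ 2 ∣ a * n ^ 2 :=
      e ▸ Finset.dvd_sum fun i _ => Dvd.dvd.mul_left (pow_dvd_pow_of_dvd (hc i) 2) _
    have d2 : p ^ 2 ∣ a * n ^ 2 := by exact_mod_cast d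
    obtain ⟨b, rfl⟩ := h1
    rw [pow_two, mul_assoc, Nat.mul_dvd_mul_iff_left hp.pos, hp.dvd_mul] at d2
    rcases d2 with d2 | d2
    · exact absurd (h2 p (Nat.mul_dvd_mul_left _ d2)) hp.prime.not_unit
    · exact hp.dvd_of_dvd_pow d2
  · have := congrArg (Int.cast : ℤ → ZMod p) e
    push_cast at this
    rw [this, (ZMod.natCast_eq_zero_iff a p).2 h1, zero_mul]

theorem bnd (a b c d M : ℤ) (a0 : a ^ 2 ≤ M ^ 2) (a1 : b ^ 2 ≤ M ^ 2) (a2 : c ^ 2 ≤ M ^ 2)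
    (a3 : d ^ 2 ≤ M ^ 2) :
    (a ^ 2 + b ^ 2 - 3 * c ^ 2 - 3 * d ^ 2) ^ 2 + 3 * (2 * (a * c + b * d)) ^ 2 ≤ 112 * M ^ 4 := by
  have b1 : (a ^ 2 + b ^ 2 - 3 * c ^ 2 - 3 * d ^ 2) ^ 2 ≤ (6 * M ^ 2) ^ 2 :=
    sq_le_sq' (by linarith [sq_nonneg a, sq_nonneg b])
      (by linarith [sq_nonneg c, sq_nonneg d, sq_nonneg M])
  have b2 : (2 * (a * c + b * d)) ^ 2 ≤ (4 * M ^ 2) ^ 2 :=
    sq_le_sq' (by linarith [sq_nonneg (a + c), sq_nonneg (b + d)])
      (by linarith [sq_nonneg (a - c), sq_nonneg (b - d)])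
  linarith [sq_nonneg (M ^ 2)]

theorem thue {p : ℕ} (hp : p.Prime) (s t : ZMod p) (hs : s ^ 2 = -1) (ht : t ^ 2 = -3) :
    ∃ (k : K) (m : ℕ), k ≠ 0 ∧ 1 ≤ m ∧ m ≤ 112 ∧ nm k = p * m := by
  haveI := Fact.mk hp
  set M := p.sqrt.sqrt with hM
  have h1 : p < (M + 1) ^ 4 := by
    have a := Nat.lt_succ_sqrt p
    have b := Nat.lt_succ_sqrt p.sqrt
    rw [← hM] at b
    simp only [Nat.succ_eq_add_one] at a b
    calc p < (p.sqrt + 1) * (p.sqrt + 1) := a
      _ ≤ ((M + 1) * (M + 1)) * ((M + 1) * (M + 1)) := Nat.mul_le_mul b b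
      _ = _ := by ring
  have h2 : M ^ 4 ≤ p := by
    have a := Nat.sqrt_le p
    have b := Nat.sqrt_le p.sqrt
    rw [← hM] at b
    calc M ^ 4 = (M * M) * (M * M) := by ring
      _ ≤ p.sqrt * p.sqrt := Nat.mul_le_mul b b
      _ ≤ p := a
  obtain ⟨u, v, huv, he⟩ := Fintype.exists_ne_map_eq_of_card_lt
    (fun u : Fin 4 → Fin (M + 1) => ((u 0 : ℕ) : ZMod p) + (u 1 : ℕ) * s + (u 2 : ℕ) * t +
      (u 3 : ℕ) * (s * t)) (by simpa using h1)
  let c : Fin 4 → ℤ := fun i => (u i : ℕ) - (v i : ℕ)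
  have hc : ∀ i, c i ^ 2 ≤ M ^ 2 := fun i => by
    have := (u i).2
    have := (v i).2
    exact sq_le_sq' (by simp only [c]; omega) (by simp only [c]; omega)
  let k : K := ⟨c 0, c 1, c 2, c 3⟩
  have hk : k ≠ 0 := fun h => huv (funext fun i => Fin.ext (by
    have h0 : c i = 0 := by
      rw [← Int.cast_eq_zero (α := ℚ)]
      fin_cases i
      exacts [congrArg K.a h, congrArg K.b h, congrArg K.c h, congrArg K.d h]
    simp only [c] at h0
    omega))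
  let n : ℤ := (c 0 ^ 2 + c 1 ^ 2 - 3 * c 2 ^ 2 - 3 * c 3 ^ 2) ^ 2 +
    3 * (2 * (c 0 * c 2 + c 1 * c 3)) ^ 2
  have hn : nm k = n := by simp [nm, k, n]
  have hd : (p : ℤ) ∣ n := by
    rw [← ZMod.intCast_zmod_eq_zero_iff_dvd]
    have e : (c 0 : ZMod p) + c 1 * s + c 2 * t + c 3 * (s * t) = 0 := by
      simp only [c]; push_cast; linear_combination he
    simp only [n]; push_cast
    generalize (c 0 : ZMod p) = a at *
    generalize (c 1 : ZMod p) = b at *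
    generalize (c 2 : ZMod p) = x at *
    generalize (c 3 : ZMod p) = y at *
    have e2 : a ^ 2 + b ^ 2 - 3 * x ^ 2 - 3 * y ^ 2 + 2 * (a * x + b * y) * t = 0 := by
      linear_combination (a + x * t - (b + y * t) * s) * e + (b + y * t) ^ 2 * hs -
        (x ^ 2 + y ^ 2) * ht
    linear_combination (a ^ 2 + b ^ 2 - 3 * x ^ 2 - 3 * y ^ 2 - 2 * (a * x + b * y) * t) * e2 +
      (2 * (a * x + b * y)) ^ 2 * ht
  obtain ⟨m, hm⟩ := hd
  have n0 : 0 < n := lt_of_le_of_ne (by positivity) fun h => nm_ne hk (by rw [hn, ← h]; simp)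
  have hb : n ≤ 112 * (M : ℤ) ^ 4 := bnd _ _ _ _ _ (hc 0) (hc 1) (hc 2) (hc 3)
  have p0 : (0 : ℤ) < p := by exact_mod_cast hp.pos
  have h2' : (M : ℤ) ^ 4 ≤ p := by exact_mod_cast h2
  have m0 : 0 < m := by by_contra h; nlinarith
  lift m to ℕ using m0.le
  refine ⟨k, m, hk, by exact_mod_cast m0, ?_, by rw [hn, hm]; simp⟩
  have : (m : ℤ) ≤ 112 := by by_contra h; nlinarith
  exact_mod_cast this

/-- norms times squares -/
def Hn : Subgroup ℚˣ where
  carrier := {u | ∃ (k : K) (q : ℚ), k ≠ 0 ∧ (u : ℚ) = nm k * q ^ 2}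
  one_mem' := ⟨1, 1, one_ne_zero, by simp [nm]⟩
  mul_mem' := by
    rintro u v ⟨k, q, hk, h⟩ ⟨l, r, hl, h'⟩
    exact ⟨k * l, q * r, mul_ne_zero hk hl, by rw [Units.val_mul, h, h', nm_mul]; ring⟩
  inv_mem' := by
    rintro u ⟨k, q, hk, h⟩
    refine ⟨k, q * (u⁻¹ : ℚˣ), hk, ?_⟩
    rw [mul_pow, ← mul_assoc, ← h, pow_two, ← mul_assoc]
    simp

/-- the relevant classes -/
def T : Subgroup (ℚˣ ⧸ Hn) :=
  Subgroup.closure (QuotientGroup.mk '' {u : ℚˣ | ∃ m : ℕ, m ≤ 112 ∧ (u : ℚ) = m})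

instance : Finite T := by
  have f : {u : ℚˣ | ∃ m : ℕ, m ≤ 112 ∧ (u : ℚ) = m}.Finite :=
    Set.Finite.subset (((Set.finite_Iic 112).image (Nat.cast : ℕ → ℚ)).preimage
      Units.val_injective.injOn) (by rintro u ⟨m, h, h'⟩; exact ⟨m, h, h'.symm⟩)
  haveI := (f.image (QuotientGroup.mk : _ → ℚˣ ⧸ Hn)).to_subtype
  haveI : Group.FG T := Group.closure_finite_fg _
  refine CommGroup.finite_of_fg_isMulTorsion _ fun x => isOfFinOrder_iff_pow_eq_one.2 ⟨2, two_pos, ?_⟩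
  obtain ⟨x, hx⟩ := x
  obtain ⟨u, rfl⟩ := QuotientGroup.mk_surjective x
  ext
  change ((u ^ 2 : ℚˣ) : ℚˣ ⧸ Hn) = 1
  exact (QuotientGroup.eq_one_iff _).2 ⟨1, u, one_ne_zero, by simp [nm]⟩

theorem mem_T (u : ℚˣ) (x y x1 x2 y1 y2 : ℚ) (h1 : x ^ 2 + 3 * y ^ 2 = u)
    (h2 : x1 ^ 2 + x2 ^ 2 - 3 * y1 ^ 2 - 3 * y2 ^ 2 = u) (h3 : x1 * y1 + x2 * y2 = 0) :
    (u : ℚˣ ⧸ Hn) ∈ T := by
  have u0 : (0 : ℚ) < u := lt_of_le_of_ne (by rw [← h1]; positivity) u.ne_zero.symm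
  obtain ⟨a, c, hac, ha⟩ := Nat.sq_mul_squarefree ((u : ℚ).num.natAbs * (u : ℚ).den)
  have e0 : (c : ℚ) ^ 2 * a = u * (u : ℚ).den ^ 2 := by
    have := congrArg (Nat.cast : ℕ → ℚ) hac
    push_cast at this
    rw [this, Nat.cast_natAbs, abs_of_pos (Rat.num_pos.2 u0), pow_two, ← mul_assoc,
      Rat.mul_den_eq_num]
  have d0 : ((u : ℚ).den : ℚ) ≠ 0 := by positivity
  have c0 : (c : ℚ) ≠ 0 := fun h => by
    rw [h] at e0
    have : 0 < (u : ℚ) * (u : ℚ).den ^ 2 := by positivity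
    simp [← e0] at this
  set r : ℚ := (u : ℚ).den / c with hr
  have e : (a : ℚ) = u * r ^ 2 := by rw [hr]; field_simp; linarith
  have key : ∀ n : ℕ, n ∣ a → ∀ v : ℚˣ, (v : ℚ) = n → (v : ℚˣ ⧸ Hn) ∈ T := by
    intro n
    induction n using induction_on_primes with
    | zero => intro _ v hv; exact absurd hv (by simp)
    | one => intro _ v hv; exact Subgroup.subset_closure ⟨v, ⟨1, by norm_num, hv⟩, rfl⟩
    | prime_mul p n hp ih =>
      intro hd v hv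
      have p0 : (p : ℚ) ≠ 0 := by exact_mod_cast hp.ne_zero
      have n0 : (n : ℚ) ≠ 0 := fun h => v.ne_zero (by simp [hv, h])
      have : v = Units.mk0 _ p0 * Units.mk0 _ n0 := by ext; simp [hv]
      rw [this, QuotientGroup.mk_mul]
      refine mul_mem ?_ (ih (dvd_of_mul_left_dvd hd) _ rfl)
      by_cases h : p ≤ 112
      · exact Subgroup.subset_closure ⟨_, ⟨p, h, rfl⟩, rfl⟩
      haveI := Fact.mk hp
      have hpa := dvd_of_mul_right_dvd hd
      have z2 : (2 : ZMod p) ≠ 0 := fun h0 => by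
        have := Nat.le_of_dvd two_pos ((ZMod.natCast_eq_zero_iff 2 p).1 h0); omega
      have z3 : (3 : ZMod p) ≠ 0 := fun h0 => by
        have := Nat.le_of_dvd three_pos ((ZMod.natCast_eq_zero_iff 3 p).1 h0); omega
      obtain ⟨t, ht⟩ : ∃ t : ZMod p, t ^ 2 = -3 := by
        obtain ⟨m, X, -, ⟨i, hi⟩, hs⟩ := desc hp hpa ha ![x * r, y * r] ![1, 3]
          (by simp [e]; linear_combination r ^ 2 * h1)
        simp at hs
        have : (X 1 : ZMod p) ≠ 0 := fun h0 => by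
          rw [h0] at hs
          fin_cases i
          · exact hi (by simpa using hs)
          · exact hi h0
        exact ⟨X 0 / X 1, by field_simp; linear_combination hs⟩
      obtain ⟨s, hs⟩ : ∃ s : ZMod p, s ^ 2 = -1 := by
        by_contra hn
        have k : ∀ a b : ZMod p, a ^ 2 + b ^ 2 = 0 → a = 0 ∧ b = 0 := fun a b hab => by
          have : b = 0 := by
            by_contra hb
            exact hn ⟨a / b, by field_simp; linear_combination hab⟩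
          exact ⟨by simpa [this] using hab, this⟩
        obtain ⟨m, X, hX, ⟨i, hi⟩, hs⟩ := desc hp hpa ha ![x1 * r, x2 * r, y1 * r, y2 * r]
          ![1, 1, -3, -3] (by simp [e, Fin.sum_univ_four]; linear_combination r ^ 2 * h2)
        simp [Fin.sum_univ_four] at hs
        have w : (X 0 : ZMod p) * X 2 + X 1 * X 3 = 0 := by
          have : (X 0 : ℚ) * X 2 + X 1 * X 3 = 0 := by
            simp only [hX]; simp; linear_combination (m * r) ^ 2 * h3
          have : X 0 * X 2 + X 1 * X 3 = 0 := by exact_mod_cast this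
          exact_mod_cast congrArg (Int.cast : ℤ → ZMod p) this
        obtain ⟨k1, k2⟩ := k (X 0 + t * X 2) (X 1 + t * X 3)
          (by linear_combination hs + 2 * t * w + ((X 2 : ZMod p) ^ 2 + X 3 ^ 2) * ht)
        obtain ⟨k3, k4⟩ := k (X 0 - t * X 2) (X 1 - t * X 3)
          (by linear_combination hs - 2 * t * w + ((X 2 : ZMod p) ^ 2 + X 3 ^ 2) * ht)
        have t0 : t ≠ 0 := fun h0 => z3 (by rw [h0] at ht; linear_combination ht)
        apply hi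
        fin_cases i
        · exact mul_left_cancel₀ z2 (show 2 * (X 0 : ZMod p) = 2 * 0 by linear_combination k1 + k3)
        · exact mul_left_cancel₀ z2 (show 2 * (X 1 : ZMod p) = 2 * 0 by linear_combination k2 + k4)
        · exact mul_left_cancel₀ (mul_ne_zero z2 t0) 
            (show 2 * t * (X 2 : ZMod p) = 2 * t * 0 by linear_combination k1 - k3)
        · exact mul_left_cancel₀ (mul_ne_zero z2 t0) 
            (show 2 * t * (X 3 : ZMod p) = 2 * t * 0 by linear_combination k2 - k4)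
      obtain ⟨k, m, hk, m1, m2, hm⟩ := thue hp s t hs ht
      have m0 : (m : ℚ) ≠ 0 := by positivity
      have : (Units.mk0 _ m0 : ℚˣ ⧸ Hn)⁻¹ = Units.mk0 _ p0 := by
        rw [← QuotientGroup.mk_inv, QuotientGroup.eq]
        exact ⟨k, 1, hk, by simp [hm, mul_comm]⟩
      rw [← this]
      exact inv_mem (Subgroup.subset_closure ⟨_, ⟨m, m2, rfl⟩, rfl⟩)
  have a0 : (a : ℚ) ≠ 0 := by exact_mod_cast ha.ne_zero
  have : (u : ℚˣ ⧸ Hn) = Units.mk0 _ a0 := QuotientGroup.eq.2 ⟨1, r, one_ne_zero, by simp [e, nm]⟩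
  rw [this]
  exact key a dvd_rfl _ rfl

end Pool.Agent.H.MP_b83182_al
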