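import Pool.Agent.H.MP_b83182_al.Emb

set_option maxHeartbeats 400000

namespace Pool.Agent.H.MP_b83182_al

open K

/-- coordinate subspaces -/
def sub (e f c d w v : Bool) : Submodule ℝ L where
  carrier := {x | (e → x.e = 0) ∧ (f → x.f = 0) ∧ (c → x.c = 0) ∧ (d → x.d = 0) ∧ (w → x.w = 0) ∧
    (v → x.v = 0)}
  zero_mem' := by simp
  add_mem' := by simp +contextual
  smul_mem' := by simp +contextual

theorem mem_sub {e f c d w v : Bool} {x : L} : x ∈ sub e f c d w v ↔ (e → x.e = 0) ∧ (f → x.f = 0) ∧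
    (c → x.c = 0) ∧ (d → x.d = 0) ∧ (w → x.w = 0) ∧ (v → x.v = 0) := Iff.rfl

/-- weight vectors -/
noncomputable def wv : A →ₗ[ℝ] L where
  toFun w := ⟨0, 0, 0, 0, w, 0, 0⟩
  map_add' _ _ := by refine G.ext ?_ ?_ ?_ ?_ ?_ ?_ ?_ <;> simp
  map_smul' _ _ := by refine G.ext ?_ ?_ ?_ ?_ ?_ ?_ ?_ <;> simp

theorem wv_ap (w : A) : wv w = ⟨0, 0, 0, 0, w, 0, 0⟩ := rfl

/-- weight projection -/
noncomputable def wp : L →ₗ[ℝ] A where
  toFun x := x.w
  map_add' _ _ := rfl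
  map_smul' _ _ := rfl

/-- first generator -/
noncomputable def e0 : L := ⟨1, 0, 0, 0, 0, 0, 0⟩
/-- second generator -/
noncomputable def f0 : L := ⟨0, 1, 0, 0, 0, 0, 0⟩

variable {N : Type} [LieRing N] [LieAlgebra ℚ N] (S : QS L N)

theorem rCn : S.Rat (sub true true true false true false) := by
  refine S.rat_cent S.rat_top S.rat_bot fun x => ⟨fun h u _ => ?_, fun h => ?_⟩
  · simp only [mem_sub, forall_const] at h
    refine G.ext ?_ ?_ ?_ ?_ ?_ ?_ ?_ <;> simp [h]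
  · have h1 : ⁅x, e0⁆ = 0 := h _ trivial
    have h2 : ⁅x, f0⁆ = 0 := h _ trivial
    have a1 : x.e = 0 := by simpa [f0] using congrArg G.c h2
    have a2 : x.f = 0 := by simpa [e0] using congrArg G.c h1
    have a3 : x.c = 0 := by simpa [e0] using congrArg G.d h1
    have a4 : x.w = 0 := by simpa [f0] using congrArg G.v h2
    simp [mem_sub, a1, a2, a3, a4]

theorem rZ2 : S.Rat (sub true true false false false false) := by
  refine S.rat_cent S.rat_top (rCn S) fun x => ⟨fun h u _ => ?_, fun h => ?_⟩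
  · simp only [mem_sub, forall_const] at h
    simp [mem_sub, h]
  · have h1 := h e0 trivial
    have h2 := h f0 trivial
    simp [mem_sub, e0, f0] at h1 h2 ⊢
    exact ⟨h2, h1⟩

theorem rCp : S.Rat (sub true true false false true false) := by
  refine S.rat_cent (rZ2 S) S.rat_bot fun x => ⟨fun h u hu => ?_, fun h => ?_⟩
  · simp only [mem_sub, forall_const] at h hu
    refine G.ext ?_ ?_ ?_ ?_ ?_ ?_ ?_ <;> simp [h, hu]
  · have h1 : ⁅x, (⟨0, 0, 1, 0, 0, 0, 0⟩ : L)⁆ = 0 := h _ (by simp [mem_sub])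
    have h2 : ∀ w, ⁅x, wv w⁆ = 0 := fun w => h _ (by simp [mem_sub, wv_ap])
    have a1 : x.e = 0 := by simpa using congrArg G.d h1
    have a2 : x.f = 0 := by simpa [wv_ap, a1] using congrArg G.v (h2 1)
    have a3 := congrArg G.z (h2 ((0, 0), (1, 0)))
    have a4 := congrArg G.z (h2 ((1, 0), (0, 0)))
    have a5 := congrArg G.z (h2 ((Complex.I, 0), (0, 0)))
    simp [wv_ap, bR_ap, Prod.mk_zero_zero] at a3 a4 a5
    have a6 : x.w.2.1 = 0 := by
      linear_combination (-1 / 2) * a4 + Complex.I / 2 * a5 + (x.w.2.1 - x.w.2.2) / 2 * Complex.I_sq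
    simp only [mem_sub, a1, a2]
    refine ⟨by simp, by simp, by simp, by simp, fun _ => ?_, by simp⟩
    have a7 : x.w.2.2 = 0 := by linear_combination -a4 - a6
    exact Prod.ext a3 (Prod.ext a6 a7)

theorem rH : S.Rat (sub true false false false false false) := by
  refine S.rat_cent (rCp S) S.rat_bot fun x => ⟨fun h u hu => ?_, fun h => ?_⟩
  · simp only [mem_sub, forall_const] at h hu
    refine G.ext ?_ ?_ ?_ ?_ ?_ ?_ ?_ <;> simp [h, hu]
  · have h1 : ⁅x, (⟨0, 0, 1, 0, 0, 0, 0⟩ : L)⁆ = 0 := h _ (by simp [mem_sub])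
    simpa [mem_sub] using congrArg G.d h1

theorem zdec (z : ℂ × ℂ) : (⟨0, 0, 0, 0, 0, 0, z⟩ : L) =
    ⁅wv ((1, 0), 0), wv (0, (z.1, 0))⁆ + ⁅wv ((0, 1), 0), wv (0, (z.2, 0))⁆ := by
  refine G.ext ?_ ?_ ?_ ?_ ?_ ?_ ?_ <;> simp [wv_ap, bR_ap]

theorem rZ : S.Rat (sub true true true true true true) := by
  refine S.rat_br (rZ2 S) (rZ2 S) (fun u hu v hv => ?_) fun x hx => ?_
  · simp only [mem_sub, forall_const] at hu hv
    simp [mem_sub, hu, hv]
  · simp only [mem_sub, forall_const] at hx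
    have : x = ⟨0, 0, 0, 0, 0, 0, x.z⟩ := by refine G.ext ?_ ?_ ?_ ?_ ?_ ?_ ?_ <;> simp [hx]
    rw [this, zdec]
    refine add_mem (Submodule.subset_span ⟨_, ?_, _, ?_, rfl⟩)
      (Submodule.subset_span ⟨_, ?_, _, ?_, rfl⟩) <;> simp [mem_sub, wv_ap]

theorem rY : S.Rat (sub true true true true true false) := by
  refine S.rat_br (rH S) (rZ2 S) (fun u hu v hv => ?_) fun x hx => ?_
  · simp only [mem_sub, forall_const] at hu hv
    simp [mem_sub, hu, hv]
  · simp only [mem_sub, forall_const] at hx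
    have : x = ⟨0, 0, 0, 0, 0, 0, x.z⟩ + ⁅f0, wv x.v⁆ := by
      refine G.ext ?_ ?_ ?_ ?_ ?_ ?_ ?_ <;> simp [hx, f0, wv_ap]
    rw [this, zdec]
    refine add_mem (add_mem (Submodule.subset_span ⟨_, ?_, _, ?_, rfl⟩)
      (Submodule.subset_span ⟨_, ?_, _, ?_, rfl⟩)) (Submodule.subset_span ⟨_, ?_, _, ?_, rfl⟩) <;>
      simp [mem_sub, wv_ap, f0]

theorem rW : S.Rat (sub true true true false false false) := by
  refine S.rat_cent S.rat_top (rY S) fun x => ⟨fun h u _ => ?_, fun h => ?_⟩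
  · simp only [mem_sub, forall_const] at h
    simp [mem_sub, h]
  · have h1 := h e0 trivial
    have h2 := h f0 trivial
    simp [mem_sub, e0, f0] at h1 h2 ⊢
    exact ⟨h2, h1⟩

/-- the weight lattice -/
noncomputable def LW : Submodule ℚ A :=
  (((sub true true true false false false).restrictScalars ℚ).comap S.i).map
    (wp.restrictScalars ℚ ∘ₗ S.i)

theorem mem_LW {w : A} : w ∈ LW S ↔
    ∃ n, ((S.i n).e = 0 ∧ (S.i n).f = 0 ∧ (S.i n).c = 0) ∧ (S.i n).w = w := by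
  simp [LW, mem_sub, wp]

theorem LW_span : Submodule.span ℝ (LW S : Set A) = ⊤ := by
  refine eq_top_iff.2 fun w _ => ?_
  have : _ ≤ (Submodule.span ℝ (LW S : Set A)).comap wp :=
    (rW S).le fun n hn => Submodule.subset_span ⟨n, hn, rfl⟩
  exact this (show wv w ∈ _ by simp [mem_sub, wv_ap])

/-- projections on the weight space -/
noncomputable def PW (φ : ℝ →ₗ[ℚ] ℚ) : A →+ A :=
  (wp.restrictScalars ℚ ∘ₗ S.i ∘ₗ S.p φ ∘ₗ wv.restrictScalars ℚ).toAddMonoidHom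

theorem PW_ap (φ : ℝ →ₗ[ℚ] ℚ) (r : ℝ) (w : A) (hw : w ∈ LW S) :
    PW S φ (r • w) = (φ r : ℝ) • w := by
  obtain ⟨n, hn, rfl⟩ := (mem_LW S).1 hw
  have := rCn S φ (wv (r • (S.i n).w) - r • S.i n) (by simp [mem_sub, wv_ap, hn])
  simp only [mem_sub, forall_const, map_sub, S.pi, G.sub_w, map_smul S.i, G.smul_w] at this
  rw [Rat.cast_smul_eq_qsmul]
  exact sub_eq_zero.1 this.2.2.2.2.1

theorem LW_ps (w : A) (hw : w ∈ LW S) : j ps * w ∈ LW S := by
  obtain ⟨E, hE⟩ : ∃ n, (S.i n).e ≠ 0 := by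
    by_contra h
    have : _ ≤ sub true false false false false false :=
      S.rat_top.le fun n _ => by simpa [mem_sub] using not_exists.1 h n
    simpa [mem_sub, e0] using this (Submodule.mem_top (x := e0))
  obtain ⟨F, hF0, hF⟩ : ∃ n, (S.i n).e = 0 ∧ (S.i n).f ≠ 0 := by
    by_contra h
    have : _ ≤ sub false true false false false false := (rH S).le fun n hn => by
      simpa [mem_sub, hn.1 rfl] using not_exists.1 h n
    simpa [mem_sub, f0] using this (show f0 ∈ _ by simp [mem_sub, f0])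
  obtain ⟨φ, hφ⟩ := exists_phi' one_ne_zero
  set α := (S.i E).e / (S.i F).f
  set ν := (S.i E).f / (S.i F).f
  have h1 : ∀ w ∈ LW S, α • (j ps * w) + ν • w ∈ LW S := fun w hw => by
    obtain ⟨n, hn, rfl⟩ := (mem_LW S).1 hw
    set x := α • (j ps * (S.i n).w) + ν • (S.i n).w
    have a1 := rW S φ (wv x) (by simp [mem_sub, wv_ap])
    have e : (S.i E).e • (j ps * (S.i n).w) + (S.i E).f • (S.i n).w = (S.i F).f • x := by
      simp only [x, α, ν, smul_add, smul_smul, mul_div_cancel₀ _ hF]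
    have a2 := rZ S φ (⁅S.i F, wv x⁆ - S.i ⁅E, n⁆) (by simp [mem_sub, wv_ap, S.lie, hn, hF0, e])
    rw [map_sub, map_sub, S.p_lie', S.p_i, hφ, one_smul] at a2
    simp only [mem_sub, forall_const] at a1
    refine (mem_LW S).2 ⟨_, ⟨a1.1, a1.2.1, a1.2.2.1⟩, smul_right_injective A hF ?_⟩
    have := a2.2.2.2.2.2 rfl
    simpa [S.lie, hn, hF0, a1, e, sub_eq_zero] using this
  have tr := trace_rat _ (PW S) (PW_ap S) (LW_span S)
  have t : ∀ (r : ℝ) (x : K × K), LinearMap.trace ℝ A (r • LinearMap.mulLeft ℝ (j x)) =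
      r * (4 * (x.1.a + x.2.a)) := fun r x => by rw [map_smul, trace_j, smul_eq_mul]
  obtain ⟨q1, hq1⟩ := tr (α • LinearMap.mulLeft ℝ (j ps) + ν • LinearMap.mulLeft ℝ (j 1))
    (by simpa using h1)
  rw [map_add, t, t] at hq1
  have e1 : ν = (q1 / 8 : ℚ) := by simp [ps] at hq1 ⊢; linarith
  have h2 : ∀ w ∈ LW S, α • (j ps * w) ∈ LW S := fun w hw => by
    have := sub_mem (h1 w hw) ((LW S).smul_mem (q1 / 8) hw)
    rwa [e1, Rat.cast_smul_eq_qsmul, add_sub_cancel_right] at this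
  obtain ⟨q2, hq2⟩ := tr (α ^ 2 • LinearMap.mulLeft ℝ (j (ps * ps))) fun w hw => by
    simpa [smul_smul, pow_two, mul_assoc] using h2 _ (h2 w hw)
  obtain ⟨q3, hq3⟩ := tr (α ^ 3 • LinearMap.mulLeft ℝ (j (ps * (ps * ps)))) fun w hw => by
    simpa [smul_smul, pow_three, mul_assoc] using h2 _ (h2 _ (h2 w hw))
  rw [t] at hq2 hq3
  simp [ps] at hq2 hq3
  have a0 : α ≠ 0 := div_ne_zero hE hF
  have e2 : α⁻¹ = (-6 * q2 / q3 : ℚ) := by
    push_cast
    rw [← hq2, ← hq3]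
    field_simp
    norm_num
  have := (LW S).smul_mem (-6 * q2 / q3) (h2 w hw)
  rwa [← Rat.cast_smul_eq_qsmul ℝ, ← e2, smul_smul, inv_mul_cancel₀ a0, one_smul] at this

theorem LW_j (x : K × K) : ∀ w ∈ LW S, j x * w ∈ LW S := by
  refine gen ⟨⟨⟨{x | ∀ w ∈ LW S, j x * w ∈ LW S}, fun ha hb w hw => ?_⟩, fun w _ => ?_⟩,
    fun q x hx w hw => ?_⟩ (fun w hw => ?_) (fun y hy w hw => ?_) x
  · rw [map_add, add_mul]; exact add_mem (ha w hw) (hb w hw)
  · simp
  · rw [map_rat_smul, smul_mul_assoc]; exact (LW S).smul_mem _ (hx w hw)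
  · simpa using hw
  · rw [map_mul, mul_assoc]; exact LW_ps S _ (hy w hw)

end Pool.Agent.H.MP_b83182_al
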